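import Pool.Agent.E8helper92.PG.Kras

/-!
# Galois descent for spaces over the field of algebraic numbers
-/

set_option autoImplicit false

namespace Pool.Agent.E8helper92.PG

open Polynomial IntermediateField

variable {p : ℕ} [hp : Fact p.Prime]

/-- The algebraic numbers in the algebraic closure of `ℚ_p`. -/
noncomputable abbrev Qb (p : ℕ) [Fact p.Prime] : IntermediateField ℚ (PadicAlgCl p) :=
  algebraicClosure ℚ (PadicAlgCl p)

theorem mem_Qb {x : PadicAlgCl p} : x ∈ Qb p ↔ IsAlgebraic ℚ x := by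
  rw [mem_algebraicClosure_iff]

theorem alg_map {x : PadicAlgCl p} (σ : PadicAlgCl p →+* PadicAlgCl p) (hx : IsAlgebraic ℚ x) :
    IsAlgebraic ℚ (σ x) :=
  hx.algHom (RingHom.toRatAlgHom σ)

theorem normalK (K : IntermediateField ℚ_[p] (PadicAlgCl p)) : Normal K (PadicAlgCl p) := by
  have : Algebra.IsAlgebraic K (PadicAlgCl p) := Algebra.IsAlgebraic.tower_top (K := ℚ_[p]) K
  have : IsAlgClosure K (PadicAlgCl p) := ⟨inferInstance, inferInstance⟩
  exact IsAlgClosure.normal K (PadicAlgCl p)

theorem descent_theta {ι : Type*} (K : IntermediateField ℚ_[p] (PadicAlgCl p))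
    (V : Submodule (Qb p) (ι → PadicAlgCl p))
    (hV : ∀ σ : PadicAlgCl p ≃ₐ[K] PadicAlgCl p, ∀ v ∈ V, (fun i => σ (v i)) ∈ V)
    (θ : PadicAlgCl p) (hθ : IsAlgebraic ℚ θ) (v : ι → PadicAlgCl p) (hv : v ∈ V)
    (hvθ : ∀ i, v i ∈ IntermediateField.adjoin K ({θ} : Set (PadicAlgCl p))) :
    v ∈ Submodule.span (Qb p) {w | w ∈ V ∧ ∀ i, w i ∈ K} := by
  classical
  have := normalK K
  have : Algebra.IsAlgebraic K (PadicAlgCl p) := Algebra.IsAlgebraic.tower_top (K := ℚ_[p]) K
  have hint : IsIntegral K θ := Algebra.IsIntegral.isIntegral θ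
  set m := minpoly K θ with hm
  have mmon : m.Monic := minpoly.monic hint
  -- polynomials
  have hP : ∀ i, ∃ P : K[X], P.degree < m.degree ∧ aeval θ P = v i := by
    intro i
    have h1 := hvθ i
    rw [← IntermediateField.mem_toSubalgebra,
      IntermediateField.adjoin_simple_toSubalgebra_of_isAlgebraic hint.isAlgebraic,
      Algebra.adjoin_singleton_eq_range_aeval] at h1
    obtain ⟨P, hP⟩ := h1
    refine ⟨P %ₘ m, degree_modByMonic_lt _ mmon, ?_⟩
    rw [← hP]
    have h2 : P = P %ₘ m + m * (P /ₘ m) := (modByMonic_add_div P m).symm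
    have h3 : aeval θ P = aeval θ (P %ₘ m) + aeval θ m * aeval θ (P /ₘ m) := by
      conv_lhs => rw [h2]
      rw [map_add, map_mul]
    rw [hm, minpoly.aeval, ← hm, zero_mul, add_zero] at h3
    exact h3.symm
  choose P hPd hPv using hP
  -- the conjugates
  set T : Finset (PadicAlgCl p) := (m.rootSet (PadicAlgCl p)).toFinset with hT
  have hTmem : ∀ r, r ∈ T ↔ aeval r m = 0 := by
    intro r
    rw [hT, Set.mem_toFinset, mem_rootSet]
    exact ⟨fun h => h.2, fun h => ⟨mmon.ne_zero, h⟩⟩
  have hcard : T.card = m.natDegree := by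
    rw [hT, Set.toFinset_card]
    exact card_rootSet_eq_natDegree (minpoly.irreducible hint).separable (IsAlgClosed.splits _)
  have hσ : ∀ r : T, ∃ σ : PadicAlgCl p ≃ₐ[K] PadicAlgCl p, σ θ = r := by
    intro r
    have h1 : IsConjRoot K θ (r : PadicAlgCl p) := by
      rw [isConjRoot_iff_mem_minpoly_rootSet hint, ← hm, mem_rootSet]
      exact ⟨mmon.ne_zero, (hTmem _).1 r.2⟩
    obtain ⟨σ, h2⟩ := isConjRoot_iff_exists_algEquiv.1 h1.symm
    exact ⟨σ, h2⟩
  choose σ hσθ using hσ
  have hralg : ∀ r : T, (r : PadicAlgCl p) ∈ Qb p := by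
    intro r
    rw [mem_Qb, ← hσθ r]
    exact alg_map (σ r : PadicAlgCl p →+* PadicAlgCl p) hθ
  let ρ : T → Qb p := fun r => ⟨r, hralg r⟩
  have hρ : Function.Injective ρ := by
    intro a b h
    exact Subtype.ext (congrArg (fun z : Qb p => (z : PadicAlgCl p)) h)
  let B : T → (Qb p)[X] := fun r => Lagrange.basis Finset.univ ρ r
  have hσv : ∀ (r : T) (i : ι), σ r (v i) = aeval (r : PadicAlgCl p) (P i) := by
    intro r i
    rw [← hPv i, ← hσθ r]
    exact (Polynomial.aeval_algHom_apply (σ r).toAlgHom θ (P i)).symm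
  have hdT : m.degree = (T.card : WithBot ℕ) := by
    rw [hcard, degree_eq_natDegree mmon.ne_zero]
  have key : ∀ i, (P i).map (algebraMap K (PadicAlgCl p)) =
      ∑ r : T, C (aeval (r : PadicAlgCl p) (P i)) * (B r).map (algebraMap (Qb p) (PadicAlgCl p)) := by
    intro i
    refine Polynomial.eq_of_degrees_lt_of_eval_finset_eq T ?_ ?_ ?_
    · rw [degree_map, ← hdT]
      exact hPd i
    · refine lt_of_le_of_lt (degree_sum_le _ _) ?_
      rw [Finset.sup_lt_iff]
      · intro r _
        refine lt_of_le_of_lt (degree_mul_le _ _) ?_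
        refine lt_of_le_of_lt (add_le_add_left degree_C_le _) ?_
        rw [zero_add, degree_map]
        have h1 := Lagrange.degree_basis (s := Finset.univ) (v := ρ) hρ.injOn (Finset.mem_univ r)
        rw [h1, Finset.card_univ, Fintype.card_coe]
        have h2 : 0 < T.card := Finset.card_pos.2 ⟨r, r.2⟩
        exact_mod_cast Nat.sub_lt h2 one_pos
      · exact WithBot.bot_lt_coe _
    · intro x hx
      rw [eval_map_algebraMap, eval_finsetSum]
      have h1 : ∀ r : T, eval x (C (aeval (r : PadicAlgCl p) (P i)) *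
          (B r).map (algebraMap (Qb p) (PadicAlgCl p))) =
          if r = ⟨x, hx⟩ then aeval x (P i) else 0 := by
        intro r
        have h2 : eval x ((B r).map (algebraMap (Qb p) (PadicAlgCl p))) =
            algebraMap (Qb p) (PadicAlgCl p) (eval (ρ ⟨x, hx⟩) (B r)) := by
          have h3 : x = algebraMap (Qb p) (PadicAlgCl p) (ρ ⟨x, hx⟩) := rfl
          conv_lhs => rw [h3]
          rw [eval_map_algebraMap, aeval_algebraMap_apply, coe_aeval_eq_eval]
        rw [eval_mul, eval_C, h2]
        by_cases h : r = ⟨x, hx⟩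
        · rw [if_pos h, h, Lagrange.eval_basis_self hρ.injOn (Finset.mem_univ _), map_one, mul_one]
        · rw [if_neg h, Lagrange.eval_basis_of_ne h (Finset.mem_univ _), map_zero, mul_zero]
      rw [Finset.sum_congr rfl fun r _ => h1 r, Finset.sum_ite_eq' Finset.univ,
        if_pos (Finset.mem_univ _)]
  have hw : ∀ k : ℕ, (fun i => ((P i).coeff k : PadicAlgCl p)) ∈ V := by
    intro k
    have h1 : (fun i => ((P i).coeff k : PadicAlgCl p)) =
        ∑ r : T, ((B r).coeff k) • (fun i => σ r (v i)) := by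
      funext i
      have h2 := congrArg (fun Q : (PadicAlgCl p)[X] => Q.coeff k) (key i)
      simp only [coeff_map, finsetSum_coeff, coeff_C_mul] at h2
      rw [Finset.sum_apply]
      refine Eq.trans h2 (Finset.sum_congr rfl fun r _ => ?_)
      rw [Pi.smul_apply, Algebra.smul_def, hσv r i, mul_comm]
    rw [h1]
    exact Submodule.sum_mem _ fun r _ => V.smul_mem _ (hV (σ r) v hv)
  have hfin : v = ∑ k ∈ Finset.range m.natDegree, (⟨θ, mem_Qb.2 hθ⟩ : Qb p) ^ k •
      (fun i => ((P i).coeff k : PadicAlgCl p)) := by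
    funext i
    rw [Finset.sum_apply, ← hPv i, aeval_eq_sum_range' (n := m.natDegree)]
    · refine Finset.sum_congr rfl fun k _ => ?_
      rw [Pi.smul_apply, Algebra.smul_def, Algebra.smul_def, map_pow, mul_comm]
      rfl
    · by_cases h0 : P i = 0
      · rw [h0, natDegree_zero]
        exact minpoly.natDegree_pos hint
      · exact natDegree_lt_natDegree h0 (hPd i)
  rw [hfin]
  exact Submodule.sum_mem _ fun k _ => Submodule.smul_mem _ _
    (Submodule.subset_span ⟨hw k, fun i => ((P i).coeff k).2⟩)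

end Pool.Agent.E8helper92.PG
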