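import Pool.Agent.E8helper92.PG.Min
import Pool.Agent.W245.PB.BakerThmP

/-!
# Excluded entries
-/

set_option autoImplicit false

namespace Pool.Agent.E8helper92.PG

open Pool.Agent.W254.PA (Hyp)
open Pool.Agent.W245.PB (IsIwasawaLog)
open Module

variable {p : ℕ} [hp : Fact p.Prime]
variable {V : Submodule (Qb p) (PadicAlgCl p)}

/-- three elements of the first column, two of them conjugate -/
theorem excl (hV : Hyp V) (hσ : ∀ σ : PadicAlgCl p ≃ₐ[ℚ_[p]] PadicAlgCl p, ∀ v ∈ V, σ v ∈ V)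
    {a b c d : PadicAlgCl p} (ha : a ∈ V) (hb : b ∈ V) (hc : c ∈ V) (hd : d ∈ V)
    (hab : LinearIndependent (Qb p) ![a, b]) (σ : PadicAlgCl p ≃ₐ[ℚ_[p]] PadicAlgCl p)
    (hfix : σ a * b = a * σ b) (hli : LinearIndependent (Qb p) ![a, c, σ c]) :
    a * d ≠ b * c := by
  intro h
  have ha0 : a ≠ 0 := hab.ne_zero 0
  have hs : b / a ∉ Qb p := by
    intro h1
    rw [LinearIndependent.pair_iff] at hab
    have h2 := hab ⟨_, h1⟩ (-1) (by
      rw [qb_smul, qb_smul]
      push_cast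
      field_simp
      ring)
    exact one_ne_zero (neg_eq_zero.1 h2.2)
  have hσa : σ a ≠ 0 := (map_ne_zero σ).2 ha0
  have hfix' : σ (b / a) = b / a := by
    rw [map_div₀, div_eq_div_iff hσa ha0]
    linear_combination -hfix
  have e1 : b / a * c = d := by
    field_simp
    linear_combination -h
  refine six hV hs ![a, c, σ c] ?_ hli
  intro j
  fin_cases j
  · refine ⟨ha, ?_⟩
    change b / a * a ∈ V
    rw [div_mul_cancel₀ _ ha0]
    exact hb
  · refine ⟨hc, ?_⟩
    change b / a * c ∈ V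
    rw [e1]
    exact hd
  · refine ⟨hσ σ c hc, ?_⟩
    change b / a * σ c ∈ V
    have e2 : b / a * σ c = σ d := by
      rw [← e1, map_mul, hfix']
    rw [e2]
    exact hσ σ d hd

theorem brumer_indep {L : PadicAlgCl p → PadicAlgCl p} (hL : IsIwasawaLog p L) {n : ℕ}
    (α : Fin n → PadicAlgCl p) (hα0 : ∀ i, α i ≠ 0) (halg : ∀ i, IsAlgebraic ℚ (α i))
    (hli : LinearIndependent ℚ fun i => L (α i)) :
    LinearIndependent (Qb p) fun i => L (α i) := by
  rw [Fintype.linearIndependent_iff]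
  intro g hg i
  have h := (Pool.Agent.W245.PB.brumer hL α hα0 halg hli 0 isAlgebraic_zero
    (fun i => (g i : PadicAlgCl p)) (fun i => mem_Qb.1 (g i).2) (by
      rw [zero_add, ← hg]
      exact Finset.sum_congr rfl fun i _ => (qb_smul _ _).symm)).2 i
  exact Subtype.ext h

theorem pow_form (σ : PadicAlgCl p ≃ₐ[ℚ_[p]] PadicAlgCl p) {l z : PadicAlgCl p} (hl : σ l = l)
    {x y : ℚ} (h : σ z = (x : PadicAlgCl p) * l + y * z) (k : ℕ) :
    (⇑σ)^[k] z = ((x * ∑ i ∈ Finset.range k, y ^ i : ℚ) : PadicAlgCl p) * l +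
      ((y ^ k : ℚ) : PadicAlgCl p) * z := by
  induction k with
  | zero => simp
  | succ k ih =>
    rw [Function.iterate_succ_apply', ih, map_add, map_mul, map_mul, map_ratCast, map_ratCast, hl, h,
      Finset.sum_range_succ]
    push_cast
    ring_nf

theorem finite_orbit (σ : PadicAlgCl p ≃ₐ[ℚ_[p]] PadicAlgCl p) (z : PadicAlgCl p) :
    ∃ k : ℕ, 0 < k ∧ (⇑σ)^[k] z = z := by
  classical
  set f := minpoly ℚ_[p] z with hf
  have hmem : ∀ n : ℕ, (⇑σ)^[n] z ∈ (f.rootSet (PadicAlgCl p)) := by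
    intro n
    induction n with
    | zero =>
      rw [Function.iterate_zero, id, Polynomial.mem_rootSet]
      exact ⟨minpoly.ne_zero (Algebra.IsIntegral.isIntegral z), minpoly.aeval _ _⟩
    | succ n ih =>
      rw [Function.iterate_succ_apply', Polynomial.mem_rootSet]
      rw [Polynomial.mem_rootSet] at ih
      refine ⟨ih.1, ?_⟩
      have h1 := Polynomial.aeval_algHom_apply (σ : PadicAlgCl p →ₐ[ℚ_[p]] PadicAlgCl p)
        ((⇑σ)^[n] z) f
      rw [ih.2, map_zero] at h1
      exact h1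
  have hfin : (f.rootSet (PadicAlgCl p)).Finite := Polynomial.rootSet_finite _ _
  obtain ⟨i, -, j, -, hij, he⟩ := Set.infinite_univ.exists_ne_map_eq_of_mapsTo
    (f := fun n : ℕ => (⇑σ)^[n] z) (t := f.rootSet (PadicAlgCl p)) (fun n _ => hmem n) hfin
  have key : ∀ i j : ℕ, i < j → (⇑σ)^[i] z = (⇑σ)^[j] z → ∃ k : ℕ, 0 < k ∧ (⇑σ)^[k] z = z := by
    intro i j hij he
    refine ⟨j - i, Nat.sub_pos_of_lt hij, ?_⟩
    have h1 : (⇑σ)^[i] ((⇑σ)^[j - i] z) = (⇑σ)^[i] z := by
      rw [← Function.iterate_add_apply, Nat.add_sub_cancel' hij.le]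
      exact he.symm
    exact σ.injective.iterate i h1
  rcases lt_or_gt_of_ne hij with h | h
  · exact key i j h he
  · exact key j i h he.symm

theorem mem_base {x : PadicAlgCl p}
    (h : ∀ σ : PadicAlgCl p ≃ₐ[ℚ_[p]] PadicAlgCl p, σ x = x) :
    ∃ y : ℚ_[p], x = algebraMap ℚ_[p] (PadicAlgCl p) y := by
  have h1 : x ∈ (⊥ : Subalgebra ℚ_[p] (PadicAlgCl p)) := by
    by_contra hcon
    rw [notMem_iff_exists_ne_and_isConjRoot
      (minpoly.irreducible (Algebra.IsIntegral.isIntegral x)).separable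
      (IsAlgClosed.splits _)] at hcon
    obtain ⟨y, h1, h2⟩ := hcon
    obtain ⟨σ, h3⟩ := isConjRoot_iff_exists_algEquiv.1 h2
    have h4 := h σ.symm
    apply h1
    rw [← h4, ← h3, AlgEquiv.symm_apply_apply]
  obtain ⟨y, hy⟩ := Algebra.mem_bot.1 h1
  exact ⟨y, hy.symm⟩

/-- A conjugate outside of the space spanned by `l` and `z`. -/
theorem exists_conj {l z : PadicAlgCl p} (hl0 : l ≠ 0)
    (hl : ∀ σ : PadicAlgCl p ≃ₐ[ℚ_[p]] PadicAlgCl p, σ l = l)
    (hz : ∀ q : ℚ, ∀ y : ℚ_[p], (z - (q : PadicAlgCl p) * l) ^ 2 ≠ algebraMap ℚ_[p] (PadicAlgCl p) y) :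
    ∃ σ : PadicAlgCl p ≃ₐ[ℚ_[p]] PadicAlgCl p, LinearIndependent ℚ ![l, z, σ z] := by
  -- `l`, `z` are independent
  have h0 : LinearIndependent ℚ ![l, z] := by
    rw [LinearIndependent.pair_iff]
    intro a b hab
    rw [Rat.smul_def, Rat.smul_def] at hab
    have hb : b = 0 := by
      by_contra hb
      have hb' : (b : PadicAlgCl p) ≠ 0 := Rat.cast_ne_zero.2 hb
      apply hz (-a / b) 0
      have : z - ((-a / b : ℚ) : PadicAlgCl p) * l = 0 := by
        push_cast
        field_simp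
        linear_combination hab
      rw [this, map_zero]
      ring
    refine ⟨?_, hb⟩
    rw [hb, Rat.cast_zero, zero_mul, add_zero] at hab
    exact Rat.cast_eq_zero.1 ((mul_eq_zero.1 hab).resolve_right hl0)
  have huniq : ∀ {a b : ℚ}, (a : PadicAlgCl p) * l + b * z = 0 → a = 0 ∧ b = 0 := by
    intro a b h
    rw [LinearIndependent.pair_iff] at h0
    exact h0 a b (by rw [Rat.smul_def, Rat.smul_def]; exact h)
  by_contra hcon
  push Not at hcon
  have hform : ∀ σ : PadicAlgCl p ≃ₐ[ℚ_[p]] PadicAlgCl p, ∃ x y : ℚ,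
      σ z = (x : PadicAlgCl p) * l + y * z := by
    intro σ
    have h1 := hcon σ
    by_contra h2
    apply h1
    have h3 : σ z ∉ Submodule.span ℚ (Set.range ![l, z]) := by
      intro h4
      rw [Matrix.range_cons, Matrix.range_cons, Matrix.range_empty, Set.union_empty,
        Set.singleton_union, Submodule.mem_span_pair] at h4
      obtain ⟨x, y, hxy⟩ := h4
      exact h2 ⟨x, y, by rw [← hxy, Rat.smul_def, Rat.smul_def]⟩
    have h4 : LinearIndependent ℚ (Fin.snoc ![l, z] (σ z) : Fin 3 → PadicAlgCl p) :=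
      linearIndependent_finSnoc.2 ⟨h0, h3⟩
    have h5 : (Fin.snoc ![l, z] (σ z) : Fin 3 → PadicAlgCl p) = ![l, z, σ z] := by
      funext i
      fin_cases i <;> rfl
    rwa [h5] at h4
  have hcase : ∀ σ : PadicAlgCl p ≃ₐ[ℚ_[p]] PadicAlgCl p,
      σ z = z ∨ ∃ x : ℚ, σ z = (x : PadicAlgCl p) * l - z := by
    intro σ
    obtain ⟨x, y, h1⟩ := hform σ
    obtain ⟨k, hk, h2⟩ := finite_orbit σ z
    rw [pow_form σ (hl σ) h1 k] at h2
    have h3 : ((x * ∑ i ∈ Finset.range k, y ^ i : ℚ) : PadicAlgCl p) * l +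
        ((y ^ k - 1 : ℚ) : PadicAlgCl p) * z = 0 := by
      push_cast at h2 ⊢
      linear_combination h2
    obtain ⟨h4, h5⟩ := huniq h3
    have h6 : y ^ k = 1 := by linear_combination h5
    rcases pow_eq_one_iff_cases.1 h6 with h7 | h7 | ⟨h7, -⟩
    · exact absurd h7 hk.ne'
    · left
      rw [h7] at h4
      simp only [one_pow, Finset.sum_const, Finset.card_range, nsmul_eq_mul, mul_one,
        mul_eq_zero, Nat.cast_eq_zero] at h4
      have h8 : x = 0 := h4.resolve_right hk.ne'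
      rw [h1, h7, h8]
      push_cast
      ring
    · right
      refine ⟨x, ?_⟩
      rw [h1, h7]
      push_cast
      ring
  by_cases hall : ∀ σ : PadicAlgCl p ≃ₐ[ℚ_[p]] PadicAlgCl p, σ z = z
  · obtain ⟨y, hy⟩ := mem_base hall
    apply hz 0 (y ^ 2)
    rw [map_pow, ← hy]
    push_cast
    ring
  · push Not at hall
    obtain ⟨τ, hτ⟩ := hall
    obtain ⟨x, hx⟩ := (hcase τ).resolve_left hτ
    -- all other elements act in the same way
    have hsame : ∀ σ : PadicAlgCl p ≃ₐ[ℚ_[p]] PadicAlgCl p,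
        σ z = z ∨ σ z = (x : PadicAlgCl p) * l - z := by
      intro σ
      rcases hcase σ with h1 | ⟨x', h1⟩
      · exact Or.inl h1
      · right
        have h2 := hcase (σ.trans τ)
        have h3 : (σ.trans τ) z = z + ((x' - x : ℚ) : PadicAlgCl p) * l := by
          rw [AlgEquiv.trans_apply, h1, map_sub, map_mul, map_ratCast, hl τ, hx]
          push_cast
          ring
        have h4 : x' - x = 0 := by
          rcases h2 with h2 | ⟨x'', h2⟩
          · rw [h3] at h2
            exact (huniq (a := x' - x) (b := 0) (by push_cast at h2 ⊢; linear_combination h2)).1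
          · rw [h3] at h2
            have := (huniq (a := x' - x - x'') (b := 2)
              (by push_cast at h2 ⊢; linear_combination h2)).2
            norm_num at this
        rw [h1]
        have h5 : x' = x := by linear_combination h4
        rw [h5]
    obtain ⟨y, hy⟩ := mem_base (x := (z - ((x / 2 : ℚ) : PadicAlgCl p) * l) ^ 2) (by
      intro σ
      rw [map_pow, map_sub, map_mul, map_ratCast, hl σ]
      rcases hsame σ with h1 | h1
      · rw [h1]
      · rw [h1]
        push_cast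
        ring)
    exact hz (x / 2) y hy

/-- explicit excluded matrices -/
theorem excl_log {L : PadicAlgCl p → PadicAlgCl p} (hL : IsIwasawaLog p L)
    (hV : Hyp (LogForms p L)) {α γ β : PadicAlgCl p} (hα0 : α ≠ 0) (hγ0 : γ ≠ 0) (hβ0 : β ≠ 0)
    (hα : IsAlgebraic ℚ α) (hγ : IsAlgebraic ℚ γ) (hβ : IsAlgebraic ℚ β)
    (hαK : ∃ y : ℚ_[p], L α = algebraMap ℚ_[p] (PadicAlgCl p) y)
    (hγK : ∃ y : ℚ_[p], L γ = algebraMap ℚ_[p] (PadicAlgCl p) y)
    (hαγ : LinearIndependent ℚ ![L α, L γ])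
    (hβK : ∀ q : ℚ, ∀ y : ℚ_[p],
      (L β - (q : PadicAlgCl p) * L α) ^ 2 ≠ algebraMap ℚ_[p] (PadicAlgCl p) y)
    {d : PadicAlgCl p} (hd : d ∈ LogForms p L) : L α * d ≠ L γ * L β := by
  have hfix : ∀ {w : PadicAlgCl p}, (∃ y : ℚ_[p], w = algebraMap ℚ_[p] (PadicAlgCl p) y) →
      ∀ σ : PadicAlgCl p ≃ₐ[ℚ_[p]] PadicAlgCl p, σ w = w := by
    rintro w ⟨y, rfl⟩ σ
    exact σ.commutes y
  have hmem : ∀ {x : PadicAlgCl p}, x ≠ 0 → IsAlgebraic ℚ x → L x ∈ LogForms p L := by
    intro x h1 h2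
    exact Submodule.subset_span (Or.inr ⟨x, h1, h2, rfl⟩)
  obtain ⟨σ, hσ⟩ := exists_conj (hαγ.ne_zero 0) (hfix hαK) hβK
  have h1 : LinearIndependent (Qb p) ![L α, L γ] := by
    have e : ![L α, L γ] = fun i => L (![α, γ] i) := by
      funext i
      fin_cases i <;> rfl
    rw [e]
    refine brumer_indep hL _ ?_ ?_ ?_
    · intro i
      fin_cases i
      · exact hα0
      · exact hγ0
    · intro i
      fin_cases i
      · exact hα
      · exact hγ
    · rw [← e]
      exact hαγ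
  have h2 : LinearIndependent (Qb p) ![L α, L β, σ (L β)] := by
    have e : ![L α, L β, σ (L β)] = fun i => L (![α, β, σ β] i) := by
      funext i
      fin_cases i
      · rfl
      · rfl
      · exact log_galois hL σ hβ0
    rw [e]
    refine brumer_indep hL _ ?_ ?_ ?_
    · intro i
      fin_cases i
      · exact hα0
      · exact hβ0
      · exact (map_ne_zero σ).2 hβ0
    · intro i
      fin_cases i
      · exact hα
      · exact hβ
      · exact alg_map (σ : PadicAlgCl p →+* PadicAlgCl p) hβ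
    · rw [← e]
      exact hσ
  refine excl hV (fun σ v hv => logForms_galois hL σ hv) (hmem hα0 hα) (hmem hγ0 hγ)
    (hmem hβ0 hβ) hd h1 σ ?_ h2
  rw [hfix hαK, hfix hγK]

end Pool.Agent.E8helper92.PG
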