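import Pool.Agent.E8helper92.PG.Excl

/-!
# Excluded entries over an intermediate field
-/

set_option autoImplicit false

namespace Pool.Agent.E8helper92.PG

open Pool.Agent.W254.PA (Hyp)
open Pool.Agent.W245.PB (IsIwasawaLog)
open Module

variable {p : ℕ} [hp : Fact p.Prime]
variable {V : Submodule (Qb p) (PadicAlgCl p)}

/-- three independent conjugates of elements of the first column -/
theorem exclK (hV : Hyp V) (hσ : ∀ σ : PadicAlgCl p ≃ₐ[ℚ_[p]] PadicAlgCl p, ∀ v ∈ V, σ v ∈ V)
    {a b c d : PadicAlgCl p} (ha : a ∈ V) (hb : b ∈ V) (hc : c ∈ V) (hd : d ∈ V)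
    (hab : LinearIndependent (Qb p) ![a, b]) (K : IntermediateField ℚ_[p] (PadicAlgCl p))
    (hK : b / a ∈ K) (z : Fin 3 → PadicAlgCl p)
    (hz : ∀ i, ∃ σ : PadicAlgCl p ≃ₐ[K] PadicAlgCl p, z i = σ a ∨ z i = σ c)
    (hli : LinearIndependent (Qb p) z) : a * d ≠ b * c := by
  intro h
  have ha0 : a ≠ 0 := hab.ne_zero 0
  have hs : b / a ∉ Qb p := by
    intro h1
    rw [LinearIndependent.pair_iff] at hab
    have h2 := hab ⟨_, h1⟩ (-1) (by
      rw [qb_smul, qb_smul]
      push_cast
      field_simp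
      ring)
    exact one_ne_zero (neg_eq_zero.1 h2.2)
  have e1 : b / a * c = d := by
    field_simp
    linear_combination -h
  refine six hV hs z ?_ hli
  intro j
  obtain ⟨σ, h1⟩ := hz j
  have hfix : σ (b / a) = b / a := σ.commutes ⟨b / a, hK⟩
  have hσ' : ∀ v ∈ V, σ v ∈ V := fun v hv => hσ (σ.restrictScalars ℚ_[p]) v hv
  have key : ∀ w : PadicAlgCl p, w ∈ V → b / a * w ∈ V → σ w ∈ DD V (b / a) := by
    intro w h2 h3
    refine ⟨hσ' w h2, ?_⟩
    have h4 := hσ' _ h3
    rwa [map_mul, hfix] at h4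
  rcases h1 with h1 | h1
  · rw [h1]
    refine key a ha ?_
    rw [div_mul_cancel₀ _ ha0]
    exact hb
  · rw [h1]
    refine key c hc ?_
    rw [e1]
    exact hd

theorem mem_K (K : IntermediateField ℚ_[p] (PadicAlgCl p)) {x : PadicAlgCl p}
    (h : ∀ σ : PadicAlgCl p ≃ₐ[K] PadicAlgCl p, σ x = x) : x ∈ K := by
  have := normalK K
  have : Algebra.IsAlgebraic K (PadicAlgCl p) := Algebra.IsAlgebraic.tower_top (K := ℚ_[p]) K
  have h1 : x ∈ (⊥ : Subalgebra K (PadicAlgCl p)) := by
    by_contra hcon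
    rw [notMem_iff_exists_ne_and_isConjRoot
      (minpoly.irreducible (Algebra.IsIntegral.isIntegral x)).separable
      (IsAlgClosed.splits _)] at hcon
    obtain ⟨y, h1, h2⟩ := hcon
    obtain ⟨σ, h3⟩ := isConjRoot_iff_exists_algEquiv.1 h2
    have h4 := h σ.symm
    apply h1
    rw [← h4, ← h3, AlgEquiv.symm_apply_apply]
  obtain ⟨y, hy⟩ := Algebra.mem_bot.1 h1
  rw [← hy]
  exact y.2

/-- A conjugate outside of the space spanned by `l` and `z`. -/
theorem exists_conjK (K : IntermediateField ℚ_[p] (PadicAlgCl p)) {l z : PadicAlgCl p}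
    (hl0 : l ≠ 0) (hlK : l ∈ K)
    (hz : ∀ q : ℚ, (z - (q : PadicAlgCl p) * l) ^ 2 ∉ K) :
    ∃ σ : PadicAlgCl p ≃ₐ[K] PadicAlgCl p, LinearIndependent ℚ ![l, z, σ z] := by
  have hl : ∀ σ : PadicAlgCl p ≃ₐ[K] PadicAlgCl p, σ l = l := fun σ => σ.commutes ⟨l, hlK⟩
  -- `l`, `z` are independent
  have h0 : LinearIndependent ℚ ![l, z] := by
    rw [LinearIndependent.pair_iff]
    intro a b hab
    rw [Rat.smul_def, Rat.smul_def] at hab
    have hb : b = 0 := by
      by_contra hb
      have hb' : (b : PadicAlgCl p) ≠ 0 := Rat.cast_ne_zero.2 hb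
      apply hz (-a / b)
      have : z - ((-a / b : ℚ) : PadicAlgCl p) * l = 0 := by
        push_cast
        field_simp
        linear_combination hab
      rw [this, zero_pow (by norm_num)]
      exact K.zero_mem
    refine ⟨?_, hb⟩
    rw [hb, Rat.cast_zero, zero_mul, add_zero] at hab
    exact Rat.cast_eq_zero.1 ((mul_eq_zero.1 hab).resolve_right hl0)
  have huniq : ∀ {a b : ℚ}, (a : PadicAlgCl p) * l + b * z = 0 → a = 0 ∧ b = 0 := by
    intro a b h
    rw [LinearIndependent.pair_iff] at h0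
    exact h0 a b (by rw [Rat.smul_def, Rat.smul_def]; exact h)
  by_contra hcon
  push Not at hcon
  have hform : ∀ σ : PadicAlgCl p ≃ₐ[K] PadicAlgCl p, ∃ x y : ℚ,
      σ z = (x : PadicAlgCl p) * l + y * z := by
    intro σ
    have h1 := hcon σ
    by_contra h2
    apply h1
    have h3 : σ z ∉ Submodule.span ℚ (Set.range ![l, z]) := by
      intro h4
      rw [Matrix.range_cons, Matrix.range_cons, Matrix.range_empty, Set.union_empty,
        Set.singleton_union, Submodule.mem_span_pair] at h4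
      obtain ⟨x, y, hxy⟩ := h4
      exact h2 ⟨x, y, by rw [← hxy, Rat.smul_def, Rat.smul_def]⟩
    have h4 : LinearIndependent ℚ (Fin.snoc ![l, z] (σ z) : Fin 3 → PadicAlgCl p) :=
      linearIndependent_finSnoc.2 ⟨h0, h3⟩
    have h5 : (Fin.snoc ![l, z] (σ z) : Fin 3 → PadicAlgCl p) = ![l, z, σ z] := by
      funext i
      fin_cases i <;> rfl
    rwa [h5] at h4
  have hcase : ∀ σ : PadicAlgCl p ≃ₐ[K] PadicAlgCl p,
      σ z = z ∨ ∃ x : ℚ, σ z = (x : PadicAlgCl p) * l - z := by
    intro σ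
    obtain ⟨x, y, h1⟩ := hform σ
    obtain ⟨k, hk, h2⟩ := finite_orbit (σ.restrictScalars ℚ_[p]) z
    rw [pow_form (σ.restrictScalars ℚ_[p]) (hl σ) h1 k] at h2
    have h3 : ((x * ∑ i ∈ Finset.range k, y ^ i : ℚ) : PadicAlgCl p) * l +
        ((y ^ k - 1 : ℚ) : PadicAlgCl p) * z = 0 := by
      push_cast at h2 ⊢
      linear_combination h2
    obtain ⟨h4, h5⟩ := huniq h3
    have h6 : y ^ k = 1 := by linear_combination h5
    rcases pow_eq_one_iff_cases.1 h6 with h7 | h7 | ⟨h7, -⟩
    · exact absurd h7 hk.ne'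
    · left
      rw [h7] at h4
      simp only [one_pow, Finset.sum_const, Finset.card_range, nsmul_eq_mul, mul_one,
        mul_eq_zero, Nat.cast_eq_zero] at h4
      have h8 : x = 0 := h4.resolve_right hk.ne'
      rw [h1, h7, h8]
      push_cast
      ring
    · right
      refine ⟨x, ?_⟩
      rw [h1, h7]
      push_cast
      ring
  by_cases hall : ∀ σ : PadicAlgCl p ≃ₐ[K] PadicAlgCl p, σ z = z
  · have hy := mem_K K hall
    apply hz 0
    have e : z - ((0 : ℚ) : PadicAlgCl p) * l = z := by push_cast; ring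
    rw [e]
    exact pow_mem hy 2
  · push Not at hall
    obtain ⟨τ, hτ⟩ := hall
    obtain ⟨x, hx⟩ := (hcase τ).resolve_left hτ
    have hsame : ∀ σ : PadicAlgCl p ≃ₐ[K] PadicAlgCl p,
        σ z = z ∨ σ z = (x : PadicAlgCl p) * l - z := by
      intro σ
      rcases hcase σ with h1 | ⟨x', h1⟩
      · exact Or.inl h1
      · right
        have h2 := hcase (σ.trans τ)
        have h3 : (σ.trans τ) z = z + ((x' - x : ℚ) : PadicAlgCl p) * l := by
          rw [AlgEquiv.trans_apply, h1, map_sub, map_mul, map_ratCast, hl τ, hx]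
          push_cast
          ring
        have h4 : x' - x = 0 := by
          rcases h2 with h2 | ⟨x'', h2⟩
          · rw [h3] at h2
            exact (huniq (a := x' - x) (b := 0) (by push_cast at h2 ⊢; linear_combination h2)).1
          · rw [h3] at h2
            have := (huniq (a := x' - x - x'') (b := 2)
              (by push_cast at h2 ⊢; linear_combination h2)).2
            norm_num at this
        rw [h1]
        have h5 : x' = x := by linear_combination h4
        rw [h5]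
    refine hz (x / 2) (mem_K K ?_)
    intro σ
    rw [map_pow, map_sub, map_mul, map_ratCast, hl σ]
    rcases hsame σ with h1 | h1
    · rw [h1]
    · rw [h1]
      push_cast
      ring

/-- explicit excluded matrices -/
theorem excl_logK {L : PadicAlgCl p → PadicAlgCl p} (hL : IsIwasawaLog p L)
    (hV : Hyp (LogForms p L)) (K : IntermediateField ℚ_[p] (PadicAlgCl p))
    {α γ β : PadicAlgCl p} (hα0 : α ≠ 0) (hγ0 : γ ≠ 0) (hβ0 : β ≠ 0)
    (hα : IsAlgebraic ℚ α) (hγ : IsAlgebraic ℚ γ) (hβ : IsAlgebraic ℚ β)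
    (hαK : L α ∈ K) (hγK : L γ ∈ K)
    (hαγ : LinearIndependent ℚ ![L α, L γ])
    (hβK : ∀ q : ℚ, (L β - (q : PadicAlgCl p) * L α) ^ 2 ∉ K)
    {d : PadicAlgCl p} (hd : d ∈ LogForms p L) : L α * d ≠ L γ * L β := by
  have hmem : ∀ {x : PadicAlgCl p}, x ≠ 0 → IsAlgebraic ℚ x → L x ∈ LogForms p L := by
    intro x h1 h2
    exact Submodule.subset_span (Or.inr ⟨x, h1, h2, rfl⟩)
  obtain ⟨σ, hσ⟩ := exists_conjK K (hαγ.ne_zero 0) hαK hβK
  have h1 : LinearIndependent (Qb p) ![L α, L γ] := by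
    have e : ![L α, L γ] = fun i => L (![α, γ] i) := by
      funext i
      fin_cases i <;> rfl
    rw [e]
    refine brumer_indep hL _ ?_ ?_ ?_
    · intro i
      fin_cases i
      · exact hα0
      · exact hγ0
    · intro i
      fin_cases i
      · exact hα
      · exact hγ
    · rw [← e]
      exact hαγ
  have h2 : LinearIndependent (Qb p) ![L α, L β, σ (L β)] := by
    have e : ![L α, L β, σ (L β)] = fun i => L (![α, β, σ β] i) := by
      funext i
      fin_cases i
      · rfl
      · rfl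
      · exact log_galois hL (σ.restrictScalars ℚ_[p]) hβ0
    rw [e]
    refine brumer_indep hL _ ?_ ?_ ?_
    · intro i
      fin_cases i
      · exact hα0
      · exact hβ0
      · exact (map_ne_zero σ).2 hβ0
    · intro i
      fin_cases i
      · exact hα
      · exact hβ
      · exact alg_map (σ : PadicAlgCl p →+* PadicAlgCl p) hβ
    · rw [← e]
      exact hσ
  refine exclK hV (fun σ v hv => logForms_galois hL σ hv) (hmem hα0 hα) (hmem hγ0 hγ)
    (hmem hβ0 hβ) hd h1 K (div_mem hγK hαK) ![L α, L β, σ (L β)] ?_ h2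
  intro i
  fin_cases i
  · exact ⟨AlgEquiv.refl, Or.inl rfl⟩
  · exact ⟨AlgEquiv.refl, Or.inr rfl⟩
  · exact ⟨σ, Or.inr rfl⟩

end Pool.Agent.E8helper92.PG
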