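import Pool.Agent.E8helper92.PG.Desc
import Pool.Agent.W254.PA.LogP

/-!
# The Iwasawa logarithm and automorphisms
-/

set_option autoImplicit false

namespace Pool.Agent.E8helper92.PG

open Pool.Agent.W245.PB (IsIwasawaLog)

variable {p : ℕ} [hp : Fact p.Prime]

theorem continuous_galois (σ : PadicAlgCl p ≃ₐ[ℚ_[p]] PadicAlgCl p) : Continuous σ := by
  have h : Isometry (σ : PadicAlgCl p → PadicAlgCl p) := by
    refine AddMonoidHomClass.isometry_of_norm σ ?_
    exact norm_galois σ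
  exact h.continuous

/-- uniqueness of the Iwasawa logarithm -/
theorem log_unique {L L' : PadicAlgCl p → PadicAlgCl p} (hL : IsIwasawaLog p L)
    (hL' : IsIwasawaLog p L') {x : PadicAlgCl p} (hx : x ≠ 0) : L x = L' x := by
  have hpne : (p : PadicAlgCl p) ≠ 0 := Nat.cast_ne_zero.2 hp.out.ne_zero
  obtain ⟨N, hN, a, ha⟩ := Pool.Agent.W254.PA.exists_norm_pow p x hx
  obtain ⟨M, hM, hM2⟩ := Pool.Agent.W254.PA.exists_pow_near p (x ^ N * (p : PadicAlgCl p) ^ a) ha 1
    one_pos
  set v := x ^ N * (p : PadicAlgCl p) ^ a with hv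
  have hv0 : v ≠ 0 := mul_ne_zero (pow_ne_zero _ hx) (zpow_ne_zero _ hpne)
  have h1 : ∀ {L : PadicAlgCl p → PadicAlgCl p}, IsIwasawaLog p L →
      L (v ^ M) = ((M * N : ℕ) : PadicAlgCl p) * L x := by
    intro L hL
    rw [hL.pow hv0, hv, hL.mul _ _ (pow_ne_zero _ hx) (zpow_ne_zero _ hpne), hL.pow hx,
      hL.zpow hpne, hL.prime]
    push_cast
    ring
  have h2 := hL.ser (v ^ M - 1) hM2
  have h3 := hL'.ser (v ^ M - 1) hM2
  rw [add_sub_cancel] at h2 h3
  have h4 := h2.unique h3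
  rw [h1 hL, h1 hL'] at h4
  refine mul_left_cancel₀ ?_ h4
  exact Nat.cast_ne_zero.2 (Nat.mul_pos hM hN).ne'

/-- the Iwasawa logarithm commutes with automorphisms -/
theorem log_galois {L : PadicAlgCl p → PadicAlgCl p} (hL : IsIwasawaLog p L)
    (σ : PadicAlgCl p ≃ₐ[ℚ_[p]] PadicAlgCl p) {x : PadicAlgCl p} (hx : x ≠ 0) :
    σ (L x) = L (σ x) := by
  have hL' : IsIwasawaLog p (fun x => σ.symm (L (σ x))) := by
    refine ⟨?_, ?_, ?_⟩
    · intro x y hx hy
      have h1 : σ x ≠ 0 := (map_ne_zero σ).2 hx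
      have h2 : σ y ≠ 0 := (map_ne_zero σ).2 hy
      simp only [map_mul]
      rw [hL.mul _ _ h1 h2, map_add]
    · simp only [map_natCast]
      rw [hL.prime, map_zero]
    · intro z hz
      have h1 : ‖σ z‖ < 1 := by rw [norm_galois]; exact hz
      have h2 := (hL.ser (σ z) h1).map (σ.symm : PadicAlgCl p →+* PadicAlgCl p).toAddMonoidHom
        (continuous_galois σ.symm)
      have h3 : (fun n : ℕ => (-1 : PadicAlgCl p) ^ n * z ^ (n + 1) / ((n : PadicAlgCl p) + 1)) =
          (⇑(σ.symm : PadicAlgCl p →+* PadicAlgCl p).toAddMonoidHom ∘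
            fun n : ℕ => (-1 : PadicAlgCl p) ^ n * (σ z) ^ (n + 1) / ((n : PadicAlgCl p) + 1)) := by
        funext n
        simp
      rw [h3]
      convert h2 using 1
      simp
  have h := log_unique hL hL' hx
  have h2 : σ (L x) = σ (σ.symm (L (σ x))) := congrArg σ h
  rwa [AlgEquiv.apply_symm_apply] at h2

/-- The linear combinations with algebraic coefficients of `1` and of the values of `L` at nonzero
algebraic numbers. -/
noncomputable def LogForms (p : ℕ) [Fact p.Prime] (L : PadicAlgCl p → PadicAlgCl p) :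
    Submodule (Qb p) (PadicAlgCl p) :=
  Submodule.span (Qb p) ({1} ∪ {z | ∃ α : PadicAlgCl p, α ≠ 0 ∧ IsAlgebraic ℚ α ∧ z = L α})

theorem logForms_galois {L : PadicAlgCl p → PadicAlgCl p} (hL : IsIwasawaLog p L)
    (σ : PadicAlgCl p ≃ₐ[ℚ_[p]] PadicAlgCl p) {v : PadicAlgCl p} (hv : v ∈ LogForms p L) :
    σ v ∈ LogForms p L := by
  unfold LogForms at hv
  induction hv using Submodule.span_induction with
  | mem x hx =>
    refine Submodule.subset_span ?_
    rcases hx with hx | ⟨α, h1, h2, h3⟩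
    · left
      rw [Set.mem_singleton_iff] at hx ⊢
      rw [hx, map_one]
    · right
      refine ⟨σ α, (map_ne_zero σ).2 h1, alg_map (σ : PadicAlgCl p →+* PadicAlgCl p) h2, ?_⟩
      rw [h3, log_galois hL σ h1]
  | zero => rw [map_zero]; exact Submodule.zero_mem _
  | add x y _ _ h1 h2 => rw [map_add]; exact Submodule.add_mem _ h1 h2
  | smul a x _ h =>
    have h1 : σ (a : PadicAlgCl p) ∈ Qb p :=
      mem_Qb.2 (alg_map (σ : PadicAlgCl p →+* PadicAlgCl p) (mem_Qb.1 a.2))
    have h2 : σ (a • x) = (⟨σ (a : PadicAlgCl p), h1⟩ : Qb p) • σ x := by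
      rw [Algebra.smul_def, Algebra.smul_def, map_mul]
      rfl
    rw [h2]
    exact Submodule.smul_mem _ _ h

end Pool.Agent.E8helper92.PG
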