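import Mathlib

/-!
# Algebraic closure of `ℚ_p`: every element is generated over `ℚ_p` by an algebraic number
-/

set_option autoImplicit false

namespace Pool.Agent.E8helper92.PG

open Polynomial IntermediateField

variable {p : ℕ} [hp : Fact p.Prime]

theorem norm_galois (σ : PadicAlgCl p ≃ₐ[ℚ_[p]] PadicAlgCl p) (x : PadicAlgCl p) : ‖σ x‖ = ‖x‖ := by
  rw [← PadicAlgCl.spectralNorm_eq, ← PadicAlgCl.spectralNorm_eq]
  exact (spectralNorm_eq_of_equiv σ x).symm

/-- Krasner: every element of the algebraic closure of `ℚ_p` is in `ℚ_p (θ)` for an algebraic number `θ`. -/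
theorem exists_theta (v : PadicAlgCl p) :
    ∃ θ : PadicAlgCl p, IsAlgebraic ℚ θ ∧ v ∈ IntermediateField.adjoin ℚ_[p] ({θ} : Set (PadicAlgCl p)) := by
  classical
  have hv : IsIntegral ℚ_[p] v := Algebra.IsIntegral.isIntegral v
  set f := minpoly ℚ_[p] v with hf
  have fmon : f.Monic := minpoly.monic hv
  have fv0 : f.aeval v = 0 := minpoly.aeval _ _
  have fdeg : f.natDegree ≠ 0 := (minpoly.natDegree_pos hv).ne'
  let S : Finset (PadicAlgCl p) := {x ∈ (f.rootSet (PadicAlgCl p)).toFinset | x ≠ v}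
  obtain ⟨δ, hδ, hδS⟩ : ∃ δ : ℝ, 0 < δ ∧ ∀ x ∈ S, δ ≤ ‖v - x‖ := by
    by_cases hS : S.Nonempty
    · refine ⟨(S.image fun x => ‖v - x‖).min' (hS.image _), ?_, ?_⟩
      · rw [Finset.lt_min'_iff]
        intro y hy
        rw [Finset.mem_image] at hy
        obtain ⟨x, hx, rfl⟩ := hy
        rw [norm_pos_iff, sub_ne_zero]
        exact (Finset.mem_filter.1 hx).2.symm
      · intro x hx
        exact Finset.min'_le _ _ (Finset.mem_image_of_mem _ hx)
    · refine ⟨1, one_pos, ?_⟩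
      intro x hx
      exact absurd ⟨x, hx⟩ hS
  have hε : (δ / (max ‖v‖ 1)) ^ f.natDegree / (f.natDegree + 1) > 0 := by positivity
  have hd : DenseRange (algebraMap ℚ ℚ_[p]) := by
    have h1 : (⇑(algebraMap ℚ ℚ_[p]) : ℚ → ℚ_[p]) = ((↑) : ℚ → ℚ_[p]) := by
      funext q
      exact eq_ratCast _ q
    rw [h1]
    exact Padic.denseRange_ratCast p
  obtain ⟨g, gmon, gdeg, gcoeff⟩ :=
    exists_monic_and_natDegree_eq_and_norm_map_algebraMap_coeff_sub_lt hd fmon hε
  obtain ⟨b, hb, hab⟩ := exists_aroots_norm_sub_lt_of_norm_coeff_sub_lt (L := PadicAlgCl p)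
      hε fv0 fmon (gmon.map _) (gdeg ▸ (g.natDegree_map _)) gcoeff
      (IsAlgClosed.splits _)
  have hab : ‖v - b‖ < δ := by
    rw [← Real.rpow_natCast, ← mul_comm_div, div_self, one_mul,
        ← Real.rpow_mul (div_pos hδ (by positivity)).le, mul_inv_cancel₀] at hab
    · simpa [mul_assoc, div_mul_cancel₀ _ (by positivity : (max ‖v‖ 1) > 0).ne'] using hab
    · simp [fdeg]
    · positivity
  have hbalg : IsAlgebraic ℚ b := by
    refine ⟨g, gmon.ne_zero, ?_⟩
    have h1 := (Polynomial.mem_aroots.1 hb).2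
    rwa [Polynomial.aeval_map_algebraMap] at h1
  refine ⟨b, hbalg, ?_⟩
  refine IsKrasner.krasner (K := ℚ_[p]) (L := PadicAlgCl p) (minpoly.irreducible hv).separable
    (IsAlgClosed.splits _) (Algebra.IsIntegral.isIntegral b) ?_
  intro x' h1 h2
  refine lt_of_lt_of_le hab (hδS x' ?_)
  rw [Finset.mem_filter]
  refine ⟨?_, h2.symm⟩
  rw [Set.mem_toFinset]
  exact (isConjRoot_iff_mem_minpoly_rootSet hv).1 h1

end Pool.Agent.E8helper92.PG
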