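import Pool.Agent.E8helper92.PG.Gal

/-!
# Singular matrices: descent to a small field
-/

set_option autoImplicit false

namespace Pool.Agent.E8helper92.PG

open Pool.Agent.W254.PA (Hyp)

variable {p : ℕ} [hp : Fact p.Prime]

/-- `ℚ_p (t)` -/
noncomputable abbrev Qt (t : PadicAlgCl p) : IntermediateField ℚ_[p] (PadicAlgCl p) :=
  IntermediateField.adjoin ℚ_[p] ({t} : Set (PadicAlgCl p))

instance finQt (t : PadicAlgCl p) : FiniteDimensional ℚ_[p] (Qt t) :=
  IntermediateField.adjoin.finiteDimensional (Algebra.IsIntegral.isIntegral t)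

theorem descent {K : IntermediateField ℚ_[p] (PadicAlgCl p)} {V : Submodule (Qb p) (PadicAlgCl p)}
    (hV : ∀ σ : PadicAlgCl p ≃ₐ[K] PadicAlgCl p, ∀ v ∈ V, σ v ∈ V) {v : PadicAlgCl p}
    (hv : v ∈ V) : v ∈ Submodule.span (Qb p) {w | w ∈ V ∧ w ∈ K} := by
  obtain ⟨θ, hθ, h1⟩ := exists_theta v
  have h2 : v ∈ IntermediateField.adjoin K ({θ} : Set (PadicAlgCl p)) := by
    have h3 : IntermediateField.adjoin ℚ_[p] ({θ} : Set (PadicAlgCl p)) ≤
        (IntermediateField.adjoin K ({θ} : Set (PadicAlgCl p))).restrictScalars ℚ_[p] := by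
      rw [IntermediateField.adjoin_le_iff]
      intro x hx
      exact IntermediateField.subset_adjoin K _ hx
    exact h3 h1
  have h3 := descent_theta (ι := Unit) K (V.comap (LinearMap.proj ()))
    (fun σ w hw => hV σ _ hw) θ hθ (fun _ => v) hv (fun _ => h2)
  have h4 := Submodule.mem_map_of_mem (f := (LinearMap.proj () : (Unit → PadicAlgCl p) →ₗ[Qb p] _)) h3
  rw [Submodule.map_span] at h4
  refine Submodule.span_mono ?_ h4
  rintro _ ⟨w, ⟨h5, h6⟩, rfl⟩
  exact ⟨h5, h6 ()⟩

variable (V : Submodule (Qb p) (PadicAlgCl p))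

/-- The matrix `a (1, s; t, s t)` is a counterexample. -/
structure Cx (a s t : PadicAlgCl p) : Prop where
  ha : a ≠ 0
  hs : s ∉ Qb p
  ht : t ∉ Qb p
  m00 : a ∈ V
  m01 : s * a ∈ V
  m10 : t * a ∈ V
  m11 : s * (t * a) ∈ V

variable {V}

theorem Cx.symm {a s t : PadicAlgCl p} (h : Cx V a s t) : Cx V a t s :=
  ⟨h.ha, h.ht, h.hs, h.m00, h.m10, h.m01, by
    have := h.m11
    rwa [show t * (s * a) = s * (t * a) by ring]⟩

/-- the space of all `z` with `z`, `t z` in `V` -/
def DD (V : Submodule (Qb p) (PadicAlgCl p)) (t : PadicAlgCl p) :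
    Submodule (Qb p) (PadicAlgCl p) where
  carrier := {z | z ∈ V ∧ t * z ∈ V}
  zero_mem' := ⟨V.zero_mem, by rw [mul_zero]; exact V.zero_mem⟩
  add_mem' := by
    rintro x y ⟨h1, h2⟩ ⟨h3, h4⟩
    exact ⟨V.add_mem h1 h3, by rw [mul_add]; exact V.add_mem h2 h4⟩
  smul_mem' := by
    rintro c x ⟨h1, h2⟩
    exact ⟨V.smul_mem c h1, by rw [mul_smul_comm]; exact V.smul_mem c h2⟩

theorem mem_DD {t z : PadicAlgCl p} : z ∈ DD V t ↔ z ∈ V ∧ t * z ∈ V := Iff.rfl

theorem qb_smul (c : Qb p) (x : PadicAlgCl p) : c • x = (c : PadicAlgCl p) * x := by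
  rw [Algebra.smul_def]; rfl

/-- the six exponentials theorem in the form used here -/
theorem six (hV : Hyp V) {t : PadicAlgCl p} (ht : t ∉ Qb p) (z : Fin 3 → PadicAlgCl p)
    (hz : ∀ j, z j ∈ DD V t) (hli : LinearIndependent (Qb p) z) : False := by
  have h := hV 2 3 ![t, -1] ![z, fun j => t * z j] ?_ ?_ ?_ ?_
  · norm_num at h
  · rw [LinearIndependent.pair_iff]
    intro a b hab
    rw [qb_smul, qb_smul] at hab
    have ha : a = 0 := by
      by_contra ha
      apply ht
      have ha' : (a : PadicAlgCl p) ≠ 0 := fun h => ha (Subtype.ext h)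
      have h1 : t = ((b / a : Qb p) : PadicAlgCl p) := by
        push_cast
        field_simp
        linear_combination hab
      rw [h1]
      exact (b / a).2
    refine ⟨ha, ?_⟩
    rw [ha] at hab
    refine Subtype.ext ?_
    simpa using hab
  · intro i j
    fin_cases i
    · exact (hz j).1
    · exact (hz j).2
  · intro j
    rw [Fin.sum_univ_two]
    simp
  · have h1 : LinearIndependent (Qb p) (fun j : Fin 3 => (LinearMap.proj 0 :
        (Fin 2 → PadicAlgCl p) →ₗ[Qb p] PadicAlgCl p)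
          (fun i => (![z, fun j => t * z j] : Fin 2 → Fin 3 → PadicAlgCl p) i j)) := by
      exact hli
    exact LinearIndependent.of_comp _ h1

theorem pair_indep {a s : PadicAlgCl p} (ha : a ≠ 0) (hs : s ∉ Qb p) :
    LinearIndependent (Qb p) ![a, s * a] := by
  rw [LinearIndependent.pair_iff]
  intro x y hxy
  rw [qb_smul, qb_smul] at hxy
  have h1 : ((x : PadicAlgCl p) + y * s) * a = 0 := by linear_combination hxy
  have h2 : (x : PadicAlgCl p) + y * s = 0 := (mul_eq_zero.1 h1).resolve_right ha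
  have hy : y = 0 := by
    by_contra hy
    apply hs
    have hy' : (y : PadicAlgCl p) ≠ 0 := fun h => hy (Subtype.ext h)
    have h3 : s = ((-x / y : Qb p) : PadicAlgCl p) := by
      push_cast
      field_simp
      linear_combination h2
    rw [h3]
    exact (-x / y).2
  refine ⟨?_, hy⟩
  rw [hy] at h2
  refine Subtype.ext ?_
  simpa using h2

/-- `DD V t` is generated by `a`, `s a` -/
theorem span_pair (hV : Hyp V) {a s t : PadicAlgCl p} (h : Cx V a s t) {z : PadicAlgCl p}
    (hz : z ∈ DD V t) : ∃ x y : Qb p, z = x * a + y * (s * a) := by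
  by_contra hcon
  have h1 : z ∉ Submodule.span (Qb p) (Set.range ![a, s * a]) := by
    intro h2
    rw [Matrix.range_cons, Matrix.range_cons, Matrix.range_empty, Set.union_empty] at h2
    rw [Set.singleton_union, Submodule.mem_span_pair] at h2
    obtain ⟨x, y, hxy⟩ := h2
    exact hcon ⟨x, y, by rw [← hxy, qb_smul, qb_smul]⟩
  have h2 : LinearIndependent (Qb p) (Fin.cons z ![a, s * a] : Fin 3 → PadicAlgCl p) :=
    linearIndependent_finCons.2 ⟨pair_indep h.ha h.hs, h1⟩
  refine six hV h.ht _ ?_ h2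
  intro j
  fin_cases j
  · exact hz
  · exact ⟨h.m00, h.m10⟩
  · refine ⟨h.m01, ?_⟩
    have := h.m11
    have e : t * (s * a) = s * (t * a) := by ring
    change t * (s * a) ∈ V
    rwa [e]

/-- columns can be chosen in `ℚ_p (t)` -/
theorem half (hV : Hyp V) (hσ : ∀ σ : PadicAlgCl p ≃ₐ[ℚ_[p]] PadicAlgCl p, ∀ v ∈ V, σ v ∈ V)
    {a s t : PadicAlgCl p} (h : Cx V a s t) :
    ∃ B : Matrix (Fin 2) (Fin 2) (Qb p), B.det ≠ 0 ∧
      ∀ j, a * ((B 0 j : PadicAlgCl p) + B 1 j * s) ∈ Qt t := by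
  classical
  set K : IntermediateField ℚ_[p] (PadicAlgCl p) := Qt t with hK
  have htK : t ∈ K := IntermediateField.mem_adjoin_simple_self ℚ_[p] t
  have hst : ∀ σ : PadicAlgCl p ≃ₐ[K] PadicAlgCl p, ∀ v ∈ DD V t, σ v ∈ DD V t := by
    intro σ v hv
    have h1 : σ t = t := σ.commutes ⟨t, htK⟩
    refine ⟨hσ (σ.restrictScalars ℚ_[p]) v hv.1, ?_⟩
    have h2 := hσ (σ.restrictScalars ℚ_[p]) _ hv.2
    have h3 : (σ.restrictScalars ℚ_[p]) (t * v) = t * σ v := by
      rw [map_mul]
      change σ t * σ v = t * σ v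
      rw [h1]
    rwa [h3] at h2
  set S : Set (PadicAlgCl p) := {w | w ∈ DD V t ∧ w ∈ K} with hS
  have ha : a ∈ DD V t := ⟨h.m00, h.m10⟩
  have hb : s * a ∈ DD V t := ⟨h.m01, by
    rw [show t * (s * a) = s * (t * a) by ring]; exact h.m11⟩
  have hab := pair_indep h.ha h.hs
  -- a nonzero element
  obtain ⟨w0, hw0, hw0n⟩ : ∃ w ∈ S, w ≠ 0 := by
    by_contra hcon
    push Not at hcon
    have h1 := descent hst ha
    have h2 : S ⊆ ({0} : Set (PadicAlgCl p)) := fun w hw => hcon w hw
    have h3 := Submodule.span_mono h2 h1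
    rw [Submodule.span_zero_singleton, Submodule.mem_bot] at h3
    exact h.ha h3
  obtain ⟨w1, hw1, hw1n⟩ : ∃ w ∈ S, w ∉ Submodule.span (Qb p) {w0} := by
    by_contra hcon
    push Not at hcon
    have h2 : Submodule.span (Qb p) S ≤ Submodule.span (Qb p) {w0} := Submodule.span_le.2 hcon
    obtain ⟨x, hx⟩ := Submodule.mem_span_singleton.1 (h2 (descent hst ha))
    obtain ⟨y, hy⟩ := Submodule.mem_span_singleton.1 (h2 (descent hst hb))
    rw [LinearIndependent.pair_iff] at hab
    have h3 := hab y (-x) (by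
      rw [← hy, ← hx, smul_smul, smul_smul, ← add_smul]
      rw [show y * x + -x * y = 0 by ring, zero_smul])
    have h4 : x = 0 := neg_eq_zero.1 h3.2
    rw [h4, zero_smul] at hx
    exact h.ha hx.symm
  obtain ⟨x0, y0, e0⟩ := span_pair hV h hw0.1
  obtain ⟨x1, y1, e1⟩ := span_pair hV h hw1.1
  refine ⟨!![x0, x1; y0, y1], ?_, ?_⟩
  · rw [Matrix.det_fin_two_of]
    intro h0
    -- w0, w1 proportional
    have hx : (x0 : PadicAlgCl p) * y1 - x1 * y0 = 0 := by
      have := congrArg (fun z : Qb p => (z : PadicAlgCl p)) h0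
      push_cast at this
      exact this
    apply hw1n
    rw [Submodule.mem_span_singleton]
    by_cases hx0 : x0 = 0
    · have hy0 : y0 ≠ 0 := by
        rintro rfl
        apply hw0n
        rw [e0, hx0]
        simp
      have hy0' : (y0 : PadicAlgCl p) ≠ 0 := fun h => hy0 (Subtype.ext h)
      have hx1 : (x1 : PadicAlgCl p) = 0 := by
        rw [hx0] at hx
        simp only [ZeroMemClass.coe_zero, zero_mul, zero_sub, neg_eq_zero, mul_eq_zero] at hx
        exact hx.resolve_right hy0'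
      refine ⟨y1 / y0, ?_⟩
      rw [qb_smul, e0, e1, hx0, hx1]
      push_cast
      field_simp
      ring
    · have hx0' : (x0 : PadicAlgCl p) ≠ 0 := fun h => hx0 (Subtype.ext h)
      refine ⟨x1 / x0, ?_⟩
      rw [qb_smul, e0, e1]
      push_cast
      field_simp
      linear_combination (-(s * a)) * hx
  · intro j
    fin_cases j
    · have h1 : a * ((x0 : PadicAlgCl p) + y0 * s) = w0 := by rw [e0]; ring
      change a * ((x0 : PadicAlgCl p) + y0 * s) ∈ K
      rw [h1]
      exact hw0.2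
    · have h1 : a * ((x1 : PadicAlgCl p) + y1 * s) = w1 := by rw [e1]; ring
      change a * ((x1 : PadicAlgCl p) + y1 * s) ∈ K
      rw [h1]
      exact hw1.2

end Pool.Agent.E8helper92.PG
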