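import Pool.Agent.E8helper92.PG.Move

/-!
# Singular matrices: the minimal field
-/

set_option autoImplicit false

namespace Pool.Agent.E8helper92.PG

open Pool.Agent.W254.PA (Hyp)
open Module

variable {p : ℕ} [hp : Fact p.Prime]
variable {V : Submodule (Qb p) (PadicAlgCl p)}

theorem Qt_le {s t : PadicAlgCl p} (h : s ∈ Qt t) : Qt s ≤ Qt t :=
  IntermediateField.adjoin_simple_le_iff.2 h

theorem finrank_Qt_le {s t : PadicAlgCl p} (h : s ∈ Qt t) :
    finrank ℚ_[p] (Qt s) ≤ finrank ℚ_[p] (Qt t) := by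
  have h1 : Function.Injective (IntermediateField.inclusion (Qt_le h)).toLinearMap :=
    IntermediateField.inclusion_injective (Qt_le h)
  exact LinearMap.finrank_le_finrank_of_injective h1

/-- the column quotient can be moved into the field generated by the row quotient -/
theorem Cx.small (hV : Hyp V) (hσ : ∀ σ : PadicAlgCl p ≃ₐ[ℚ_[p]] PadicAlgCl p, ∀ v ∈ V, σ v ∈ V)
    {a s t : PadicAlgCl p} (h : Cx V a s t) : ∃ s', Mob s s' ∧ s' ∈ Qt t := by
  obtain ⟨B, hB, hK⟩ := half hV hσ h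
  obtain ⟨-, -, hy0, -, hm⟩ := h.mul 1 B (by rw [Matrix.det_one]; exact one_ne_zero) hB rfl rfl rfl rfl
  refine ⟨_, hm, ?_⟩
  have e : ((B 0 1 : PadicAlgCl p) + B 1 1 * s) / ((B 0 0 : PadicAlgCl p) + B 1 0 * s) =
      (a * ((B 0 1 : PadicAlgCl p) + B 1 1 * s)) / (a * ((B 0 0 : PadicAlgCl p) + B 1 0 * s)) := by
    rw [mul_div_mul_left _ _ h.ha]
  rw [e]
  exact (Qt t).div_mem (hK 1) (hK 0)

/-- the descent to the minimal field -/
theorem Cx.minimal (hV : Hyp V)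
    (hσ : ∀ σ : PadicAlgCl p ≃ₐ[ℚ_[p]] PadicAlgCl p, ∀ v ∈ V, σ v ∈ V)
    {a s t : PadicAlgCl p} (h : Cx V a s t) :
    ∃ A B : Matrix (Fin 2) (Fin 2) (Qb p), A.det ≠ 0 ∧ B.det ≠ 0 ∧
      ∃ x y : Fin 2 → PadicAlgCl p,
        (∀ i, x i = A i 0 + A i 1 * t) ∧ (∀ j, y j = B 0 j + B 1 j * s) ∧
        x 0 ≠ 0 ∧ y 0 ≠ 0 ∧ Mob t (x 1 / x 0) ∧ Mob s (y 1 / y 0) ∧
        (∀ i j, a * x i * y j ∈ Qt (x 1 / x 0)) ∧ Qt (y 1 / y 0) = Qt (x 1 / x 0) ∧
        (∀ t', Mob t t' → finrank ℚ_[p] (Qt (x 1 / x 0)) ≤ finrank ℚ_[p] (Qt t')) ∧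
        (∀ s', Mob s s' → finrank ℚ_[p] (Qt (x 1 / x 0)) ≤ finrank ℚ_[p] (Qt s')) := by
  classical
  have hex : ∃ n : ℕ, ∃ t', Mob t t' ∧ finrank ℚ_[p] (Qt t') = n := ⟨_, t, Mob.refl t, rfl⟩
  obtain ⟨t0, ht0, hn⟩ := Nat.find_spec hex
  have hmin : ∀ t', Mob t t' → finrank ℚ_[p] (Qt t0) ≤ finrank ℚ_[p] (Qt t') := by
    intro t' ht'
    rw [hn]
    exact Nat.find_min' hex ⟨t', ht', rfl⟩
  obtain ⟨A, B, C, D, h1, h2⟩ := id ht0
  have hdet1 : (!![D, C; B, A] : Matrix (Fin 2) (Fin 2) (Qb p)).det ≠ 0 := by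
    rw [Matrix.det_fin_two_of]
    intro h0
    apply h1
    linear_combination h0
  set A0 : Matrix (Fin 2) (Fin 2) (Qb p) := !![D, C; B, A] with hA0
  have e1 : (((1 : Matrix (Fin 2) (Fin 2) (Qb p)) 0 1 : Qb p) : PadicAlgCl p) +
      ((1 : Matrix (Fin 2) (Fin 2) (Qb p)) 1 1 : Qb p) * s = s := by simp
  have e2 : (((1 : Matrix (Fin 2) (Fin 2) (Qb p)) 0 0 : Qb p) : PadicAlgCl p) +
      ((1 : Matrix (Fin 2) (Fin 2) (Qb p)) 1 0 : Qb p) * s = 1 := by simp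
  have e3 : ((A0 1 0 : Qb p) : PadicAlgCl p) + (A0 1 1 : Qb p) * t =
      t0 * (((A0 0 0 : Qb p) : PadicAlgCl p) + (A0 0 1 : Qb p) * t) := by
    change (B : PadicAlgCl p) + A * t = t0 * ((D : PadicAlgCl p) + C * t)
    linear_combination -h2
  set x : Fin 2 → PadicAlgCl p := fun i => A0 i 0 + A0 i 1 * t with hx
  have hx01 : x 1 = t0 * x 0 := e3
  obtain ⟨h4, h5, -, -, -⟩ := h.mul A0 1 hdet1 (by rw [Matrix.det_one]; exact one_ne_zero)
    (x0 := x 0) (x1 := x 1) rfl rfl e2.symm e1.symm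
  have hx10 : x 1 / x 0 = t0 := by rw [hx01, mul_div_cancel_right₀ _ h5]
  rw [mul_one, div_one, hx10] at h4
  obtain ⟨B0, hB0, hK⟩ := half hV hσ h4
  set y : Fin 2 → PadicAlgCl p := fun j => B0 0 j + B0 1 j * s with hy
  obtain ⟨h6, -, h7, -, h8⟩ := h.mul A0 B0 hdet1 hB0
    (x0 := x 0) (x1 := x 1) (y0 := y 0) (y1 := y 1) rfl rfl rfl rfl
  have hK' : ∀ j, a * x 0 * y j ∈ Qt t0 := hK
  have ht0mem : t0 ∈ Qt t0 := IntermediateField.mem_adjoin_simple_self ℚ_[p] t0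
  have hs0 : y 1 / y 0 ∈ Qt t0 := by
    have e : y 1 / y 0 = (a * x 0 * y 1) / (a * x 0 * y 0) := by
      rw [mul_div_mul_left _ _ (mul_ne_zero h.ha h5)]
    rw [e]
    exact (Qt t0).div_mem (hK' 1) (hK' 0)
  rw [hx10] at h6
  have heq : Qt (y 1 / y 0) = Qt t0 := by
    obtain ⟨t2, ht2, ht2m⟩ := h6.symm.small hV hσ
    have h9 : Mob t t2 := ht0.trans h.ht ht2
    exact IntermediateField.eq_of_le_of_finrank_le (Qt_le hs0)
      ((hmin t2 h9).trans (finrank_Qt_le ht2m))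
  refine ⟨A0, B0, hdet1, hB0, x, y, fun i => rfl, fun j => rfl, h5, h7, ?_, h8, ?_, ?_, ?_, ?_⟩
  · rw [hx10]; exact ht0
  · intro i j
    rw [hx10]
    fin_cases i
    · exact hK' j
    · change a * x 1 * y j ∈ Qt t0
      have e : a * x 1 * y j = t0 * (a * x 0 * y j) := by rw [hx01]; ring
      rw [e]
      exact (Qt t0).mul_mem ht0mem (hK' j)
  · rw [hx10]; exact heq
  · rw [hx10]; exact hmin
  · rw [hx10]
    intro s' hs'
    obtain ⟨a', h10⟩ := h.symm.moveT hs'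
    obtain ⟨t3, h11, h12⟩ := h10.small hV hσ
    exact (hmin t3 h11).trans (finrank_Qt_le h12)

/-- singular matrices with entries in `V` -/
def Cexa (V : Submodule (Qb p) (PadicAlgCl p)) (M : Matrix (Fin 2) (Fin 2) (PadicAlgCl p)) : Prop :=
  (∀ i j, M i j ∈ V) ∧
  LinearIndependent (Qb p) (fun i : Fin 2 => fun j : Fin 2 => M i j) ∧
  LinearIndependent (Qb p) (fun j : Fin 2 => fun i : Fin 2 => M i j) ∧
  M.det = 0

theorem Cexa.transpose {M : Matrix (Fin 2) (Fin 2) (PadicAlgCl p)} (h : Cexa V M) :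
    Cexa V M.transpose :=
  ⟨fun i j => h.1 j i, h.2.2.1, h.2.1, by rw [Matrix.det_transpose]; exact h.2.2.2⟩

theorem Cexa.col_ne {M : Matrix (Fin 2) (Fin 2) (PadicAlgCl p)} (h : Cexa V M) (x y : Qb p)
    (h0 : (x : PadicAlgCl p) * M 0 0 + y * M 0 1 = 0)
    (h1 : (x : PadicAlgCl p) * M 1 0 + y * M 1 1 = 0) :
    x = 0 ∧ y = 0 := by
  have h3 := h.2.2.1
  rw [Fintype.linearIndependent_iff] at h3
  have h4 := h3 ![x, y] (by
    rw [Fin.sum_univ_two]
    funext i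
    fin_cases i
    · simpa [qb_smul] using h0
    · simpa [qb_smul] using h1)
  exact ⟨h4 0, h4 1⟩

theorem Cexa.m00 {M : Matrix (Fin 2) (Fin 2) (PadicAlgCl p)} (h : Cexa V M) : M 0 0 ≠ 0 := by
  intro h0
  have hd := h.2.2.2
  rw [Matrix.det_fin_two, h0, zero_mul, zero_sub, neg_eq_zero, mul_eq_zero] at hd
  rcases hd with hd | hd
  · have := h.transpose.col_ne 1 0 (by simp [h0]) (by simp [hd])
    exact one_ne_zero this.1
  · have := h.col_ne 1 0 (by simp [h0]) (by simp [hd])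
    exact one_ne_zero this.1

theorem Cexa.s_notMem {M : Matrix (Fin 2) (Fin 2) (PadicAlgCl p)} (h : Cexa V M) :
    M 0 1 / M 0 0 ∉ Qb p := by
  intro hs
  have h0 := h.m00
  have hd := h.2.2.2
  rw [Matrix.det_fin_two] at hd
  have := h.col_ne ⟨_, hs⟩ (-1) (by
    push_cast
    field_simp
    ring) (by
    push_cast
    field_simp
    linear_combination -hd)
  exact one_ne_zero (neg_eq_zero.1 this.2)

theorem Cexa.cx {M : Matrix (Fin 2) (Fin 2) (PadicAlgCl p)} (h : Cexa V M) :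
    Cx V (M 0 0) (M 0 1 / M 0 0) (M 1 0 / M 0 0) := by
  have h0 := h.m00
  have hd := h.2.2.2
  rw [Matrix.det_fin_two] at hd
  refine ⟨h0, h.s_notMem, h.transpose.s_notMem, h.1 0 0, ?_, ?_, ?_⟩
  · rw [div_mul_cancel₀ _ h0]; exact h.1 0 1
  · rw [div_mul_cancel₀ _ h0]; exact h.1 1 0
  · have e : M 0 1 / M 0 0 * (M 1 0 / M 0 0 * M 0 0) = M 1 1 := by
      field_simp
      linear_combination -hd
    rw [e]
    exact h.1 1 1

theorem Cx.cexa {a s t : PadicAlgCl p} (h : Cx V a s t) {M : Matrix (Fin 2) (Fin 2) (PadicAlgCl p)}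
    (h00 : M 0 0 = a) (h01 : M 0 1 = s * a) (h10 : M 1 0 = t * a) (h11 : M 1 1 = s * (t * a)) :
    Cexa V M := by
  refine ⟨?_, ?_, ?_, ?_⟩
  · intro i j
    fin_cases i <;> fin_cases j
    · change M 0 0 ∈ V
      rw [h00]; exact h.m00
    · change M 0 1 ∈ V
      rw [h01]; exact h.m01
    · change M 1 0 ∈ V
      rw [h10]; exact h.m10
    · change M 1 1 ∈ V
      rw [h11]; exact h.m11
  · have h1 := pair_indep h.ha h.ht
    have h2 : LinearIndependent (Qb p) (fun i : Fin 2 => (LinearMap.proj 0 :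
        (Fin 2 → PadicAlgCl p) →ₗ[Qb p] PadicAlgCl p) (fun j => M i j)) := by
      have e : (fun i : Fin 2 => (LinearMap.proj 0 :
        (Fin 2 → PadicAlgCl p) →ₗ[Qb p] PadicAlgCl p) (fun j => M i j)) = ![a, t * a] := by
        funext i
        fin_cases i
        · exact h00
        · exact h10
      rw [e]
      exact h1
    exact LinearIndependent.of_comp _ h2
  · have h1 := pair_indep h.ha h.hs
    have h2 : LinearIndependent (Qb p) (fun j : Fin 2 => (LinearMap.proj 0 :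
        (Fin 2 → PadicAlgCl p) →ₗ[Qb p] PadicAlgCl p) (fun i => M i j)) := by
      have e : (fun j : Fin 2 => (LinearMap.proj 0 :
        (Fin 2 → PadicAlgCl p) →ₗ[Qb p] PadicAlgCl p) (fun i => M i j)) = ![a, s * a] := by
        funext i
        fin_cases i
        · exact h00
        · exact h01
      rw [e]
      exact h1
    exact LinearIndependent.of_comp _ h2
  · rw [Matrix.det_fin_two, h00, h01, h10, h11]
    ring

/-- the descent for matrices -/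
theorem Cexa.minimal (hV : Hyp V)
    (hσ : ∀ σ : PadicAlgCl p ≃ₐ[ℚ_[p]] PadicAlgCl p, ∀ v ∈ V, σ v ∈ V)
    {M : Matrix (Fin 2) (Fin 2) (PadicAlgCl p)} (h : Cexa V M) :
    ∃ A B : Matrix (Fin 2) (Fin 2) (Qb p), A.det ≠ 0 ∧ B.det ≠ 0 ∧
      ∃ N : Matrix (Fin 2) (Fin 2) (PadicAlgCl p),
        N = A.map (algebraMap (Qb p) (PadicAlgCl p)) * M *
          B.map (algebraMap (Qb p) (PadicAlgCl p)) ∧ Cexa V N ∧
        ∃ K : IntermediateField ℚ_[p] (PadicAlgCl p), FiniteDimensional ℚ_[p] K ∧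
          (∀ i j, N i j ∈ K) ∧ K = Qt (N 1 0 / N 0 0) ∧ K = Qt (N 0 1 / N 0 0) ∧
          (∀ x, Mob (M 1 0 / M 0 0) x → finrank ℚ_[p] K ≤ finrank ℚ_[p] (Qt x)) ∧
          (∀ x, Mob (M 0 1 / M 0 0) x → finrank ℚ_[p] K ≤ finrank ℚ_[p] (Qt x)) := by
  have hcx := h.cx
  obtain ⟨A, B, hA, hB, x, y, hx, hy, hx0, hy0, hm1, hm2, hmem, heq, hmin1, hmin2⟩ :=
    hcx.minimal hV hσ
  have h00 := h.m00
  have hd := h.2.2.2
  rw [Matrix.det_fin_two] at hd
  set N : Matrix (Fin 2) (Fin 2) (PadicAlgCl p) := A.map (algebraMap (Qb p) (PadicAlgCl p)) * M *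
          B.map (algebraMap (Qb p) (PadicAlgCl p)) with hN
  have hNij : ∀ i j, N i j = M 0 0 * x i * y j := by
    intro i j
    have e : N i j = ((A i 0 : PadicAlgCl p) * M 0 0 + A i 1 * M 1 0) * B 0 j +
        ((A i 0 : PadicAlgCl p) * M 0 1 + A i 1 * M 1 1) * B 1 j := by
      rw [hN]
      simp only [Matrix.mul_apply, Fin.sum_univ_two, Matrix.map_apply]
      rfl
    rw [e, hx, hy]
    field_simp
    linear_combination ((A i 1 : Qb p) : PadicAlgCl p) * (B 1 j : Qb p) * hd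
  obtain ⟨h6, -, -, -, -⟩ := hcx.mul A B hA hB (hx 0) (hx 1) (hy 0) (hy 1)
  have q1 : N 1 0 / N 0 0 = x 1 / x 0 := by
    rw [hNij, hNij]
    field_simp
  have q2 : N 0 1 / N 0 0 = y 1 / y 0 := by
    rw [hNij, hNij]
    field_simp
  refine ⟨A, B, hA, hB, N, rfl, ?_, Qt (x 1 / x 0), inferInstance, ?_, ?_, ?_, hmin1, hmin2⟩
  · refine h6.cexa (hNij 0 0) ?_ ?_ ?_
    · rw [hNij]; field_simp
    · rw [hNij]; field_simp
    · rw [hNij]; field_simp
  · intro i j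
    rw [hNij]
    exact hmem i j
  · rw [q1]
  · rw [q2, heq]

end Pool.Agent.E8helper92.PG
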