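import Pool.Agent.E8helper92.PG.Main

/-!
# Singular matrices: Moebius transformations of the quotients
-/

set_option autoImplicit false

namespace Pool.Agent.E8helper92.PG

open Pool.Agent.W254.PA (Hyp)

variable {p : ℕ} [hp : Fact p.Prime]

/-- `y = (a x + b) / (c x + d)` for an invertible matrix with algebraic entries -/
def Mob (x y : PadicAlgCl p) : Prop :=
  ∃ a b c d : Qb p, a * d - b * c ≠ 0 ∧
    y * ((c : PadicAlgCl p) * x + d) = (a : PadicAlgCl p) * x + b

theorem lin_zero {x : PadicAlgCl p} (hx : x ∉ Qb p) {c d : Qb p}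
    (h : (c : PadicAlgCl p) * x + d = 0) : c = 0 ∧ d = 0 := by
  have hc : c = 0 := by
    by_contra hc
    apply hx
    have hc' : (c : PadicAlgCl p) ≠ 0 := fun h => hc (Subtype.ext h)
    have h3 : x = ((-d / c : Qb p) : PadicAlgCl p) := by
      push_cast
      field_simp
      linear_combination h
    rw [h3]
    exact (-d / c).2
  refine ⟨hc, ?_⟩
  rw [hc] at h
  refine Subtype.ext ?_
  simpa using h

theorem coe_det {a b c d : Qb p} (h : a * d - b * c ≠ 0) :
    (a : PadicAlgCl p) * d - b * c ≠ 0 := by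
  intro h1
  apply h
  refine Subtype.ext ?_
  push_cast
  exact h1

theorem Mob.refl (x : PadicAlgCl p) : Mob x x :=
  ⟨1, 0, 0, 1, by norm_num, by push_cast; ring⟩

theorem Mob.notMem {x y : PadicAlgCl p} (hx : x ∉ Qb p) (h : Mob x y) : y ∉ Qb p := by
  intro hy
  obtain ⟨a, b, c, d, h1, h2⟩ := h
  have h3 : ((a - ⟨y, hy⟩ * c : Qb p) : PadicAlgCl p) * x + ((b - ⟨y, hy⟩ * d : Qb p)) = 0 := by
    push_cast
    linear_combination -h2
  obtain ⟨h4, h5⟩ := lin_zero hx h3
  apply h1
  linear_combination d * h4 - c * h5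

theorem Mob.denom {x : PadicAlgCl p} (hx : x ∉ Qb p) {a b c d : Qb p}
    (h : a * d - b * c ≠ 0) : (c : PadicAlgCl p) * x + d ≠ 0 := by
  intro h1
  obtain ⟨h4, h5⟩ := lin_zero hx h1
  apply h
  rw [h4, h5]
  ring

theorem Mob.symm {x y : PadicAlgCl p} (h : Mob x y) : Mob y x := by
  obtain ⟨a, b, c, d, h1, h2⟩ := h
  refine ⟨d, -b, -c, a, ?_, ?_⟩
  · intro h3
    apply h1
    linear_combination h3
  · push_cast
    linear_combination -h2

theorem Mob.trans {x y z : PadicAlgCl p} (hx : x ∉ Qb p) (h : Mob x y) (h' : Mob y z) :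
    Mob x z := by
  obtain ⟨a, b, c, d, h1, h2⟩ := h
  obtain ⟨a', b', c', d', h3, h4⟩ := h'
  refine ⟨a' * a + b' * c, a' * b + b' * d, c' * a + d' * c, c' * b + d' * d, ?_, ?_⟩
  · intro h5
    have h6 : (a' * d' - b' * c') * (a * d - b * c) = 0 := by linear_combination h5
    rcases mul_eq_zero.1 h6 with h7 | h7
    · exact h3 h7
    · exact h1 h7
  · have h5 := Mob.denom hx h1
    push_cast
    linear_combination ((c : PadicAlgCl p) * x + d) * h4 + (a' - z * c') * h2

variable {V : Submodule (Qb p) (PadicAlgCl p)}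

/-- multiplication with invertible matrices from both sides -/
theorem Cx.mul {a s t : PadicAlgCl p} (h : Cx V a s t) (A B : Matrix (Fin 2) (Fin 2) (Qb p))
    (hA : A.det ≠ 0) (hB : B.det ≠ 0) {x0 x1 y0 y1 : PadicAlgCl p}
    (hx0 : x0 = A 0 0 + A 0 1 * t) (hx1 : x1 = A 1 0 + A 1 1 * t)
    (hy0 : y0 = B 0 0 + B 1 0 * s) (hy1 : y1 = B 0 1 + B 1 1 * s) :
    Cx V (a * x0 * y0) (y1 / y0) (x1 / x0) ∧ x0 ≠ 0 ∧ y0 ≠ 0 ∧ Mob t (x1 / x0) ∧
      Mob s (y1 / y0) := by
  rw [Matrix.det_fin_two] at hA hB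
  have hA' : A 1 1 * A 0 0 - A 1 0 * A 0 1 ≠ 0 := by
    intro h0
    apply hA
    linear_combination h0
  have hB' : B 1 1 * B 0 0 - B 0 1 * B 1 0 ≠ 0 := by
    intro h0
    apply hB
    linear_combination h0
  have hx0n : x0 ≠ 0 := by
    have := Mob.denom h.ht hA'
    rw [hx0]
    intro h0
    apply this
    linear_combination h0
  have hy0n : y0 ≠ 0 := by
    have := Mob.denom h.hs hB'
    rw [hy0]
    intro h0
    apply this
    linear_combination h0
  have m1 : Mob t (x1 / x0) := by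
    refine ⟨A 1 1, A 1 0, A 0 1, A 0 0, hA', ?_⟩
    have e : (A 0 1 : PadicAlgCl p) * t + A 0 0 = x0 := by rw [hx0]; ring
    rw [e, div_mul_cancel₀ _ hx0n, hx1]
    ring
  have m2 : Mob s (y1 / y0) := by
    refine ⟨B 1 1, B 0 1, B 1 0, B 0 0, hB', ?_⟩
    have e : (B 1 0 : PadicAlgCl p) * s + B 0 0 = y0 := by rw [hy0]; ring
    rw [e, div_mul_cancel₀ _ hy0n, hy1]
    ring
  have key : ∀ c c' d d' : Qb p,
      a * ((c : PadicAlgCl p) + c' * t) * ((d : PadicAlgCl p) + d' * s) ∈ V := by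
    intro c c' d d'
    have e : a * ((c : PadicAlgCl p) + c' * t) * ((d : PadicAlgCl p) + d' * s) =
        (c * d) • a + (c * d') • (s * a) + (c' * d) • (t * a) + (c' * d') • (s * (t * a)) := by
      simp only [qb_smul]
      push_cast
      ring
    rw [e]
    exact V.add_mem (V.add_mem (V.add_mem (V.smul_mem _ h.m00) (V.smul_mem _ h.m01))
      (V.smul_mem _ h.m10)) (V.smul_mem _ h.m11)
  refine ⟨⟨?_, m2.notMem h.hs, m1.notMem h.ht, ?_, ?_, ?_, ?_⟩, hx0n, hy0n, m1, m2⟩
  · exact mul_ne_zero (mul_ne_zero h.ha hx0n) hy0n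
  · rw [hx0, hy0]
    exact key _ _ _ _
  · have e : y1 / y0 * (a * x0 * y0) = a * x0 * y1 := by field_simp
    rw [e, hx0, hy1]
    exact key _ _ _ _
  · have e : x1 / x0 * (a * x0 * y0) = a * x1 * y0 := by field_simp
    rw [e, hx1, hy0]
    exact key _ _ _ _
  · have e : y1 / y0 * (x1 / x0 * (a * x0 * y0)) = a * x1 * y1 := by field_simp
    rw [e, hx1, hy1]
    exact key _ _ _ _

theorem Cx.moveT {a s t t' : PadicAlgCl p} (h : Cx V a s t) (ht : Mob t t') :
    ∃ a', Cx V a' s t' := by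
  obtain ⟨A, B, C, D, h1, h2⟩ := ht
  have h3 := h.mul !![D, C; B, A] 1 (by
    rw [Matrix.det_fin_two_of]
    intro h0
    apply h1
    linear_combination h0) (by rw [Matrix.det_one]; exact one_ne_zero) rfl rfl rfl rfl
  obtain ⟨h4, h5, h6, -, -⟩ := h3
  have e1 : (((1 : Matrix (Fin 2) (Fin 2) (Qb p)) 0 1 : Qb p) : PadicAlgCl p) +
      ((1 : Matrix (Fin 2) (Fin 2) (Qb p)) 1 1 : Qb p) * s = s := by simp
  have e2 : (((1 : Matrix (Fin 2) (Fin 2) (Qb p)) 0 0 : Qb p) : PadicAlgCl p) +
      ((1 : Matrix (Fin 2) (Fin 2) (Qb p)) 1 0 : Qb p) * s = 1 := by simp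
  have e3 : ((!![D, C; B, A] 1 0 : Qb p) : PadicAlgCl p) + (!![D, C; B, A] 1 1 : Qb p) * t =
      t' * (((!![D, C; B, A] 0 0 : Qb p) : PadicAlgCl p) + (!![D, C; B, A] 0 1 : Qb p) * t) := by
    change (B : PadicAlgCl p) + A * t = t' * ((D : PadicAlgCl p) + C * t)
    linear_combination -h2
  rw [e1, e2, e3, mul_div_cancel_right₀ _ h5, div_one, mul_one] at h4
  exact ⟨_, h4⟩

/-- The stabilizers of the two quotients agree. -/
theorem Cx.moeb (hV : Hyp V) {a s t : PadicAlgCl p} (h : Cx V a s t)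
    (σ : PadicAlgCl p ≃ₐ[ℚ_[p]] PadicAlgCl p) (hσ : ∀ v ∈ V, σ v ∈ V) (hm : Mob t (σ t)) :
    Mob s (σ s) := by
  obtain ⟨A, B, C, D, h1, h2⟩ := hm
  have hu := Mob.denom h.ht h1
  set u : PadicAlgCl p := (C : PadicAlgCl p) * t + D with hu'
  have hdet := coe_det h1
  have key : ∀ z : PadicAlgCl p, z ∈ V → t * z ∈ V → σ z / u ∈ DD V t := by
    intro z hz htz
    have h3 : (C : PadicAlgCl p) * (t * (σ z / u)) + D * (σ z / u) = σ z := by
      rw [← mul_assoc, ← add_mul, ← hu', mul_div_cancel₀ _ hu]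
    have h4 : (A : PadicAlgCl p) * (t * (σ z / u)) + B * (σ z / u) = σ (t * z) := by
      rw [← mul_assoc, ← add_mul, ← h2, map_mul]
      field_simp
    have h5 := hσ z hz
    have h6 := hσ _ htz
    generalize σ z / u = w at h3 h4 ⊢
    constructor
    · have e : w = (A / (A * D - B * C) : Qb p) • σ z +
          (-C / (A * D - B * C) : Qb p) • σ (t * z) := by
        rw [qb_smul, qb_smul]
        push_cast
        rw [← h3, ← h4]
        field_simp
        ring
      rw [e]
      exact V.add_mem (V.smul_mem _ h5) (V.smul_mem _ h6)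
    · have e : t * w = (-B / (A * D - B * C) : Qb p) • σ z +
          (D / (A * D - B * C) : Qb p) • σ (t * z) := by
        rw [qb_smul, qb_smul]
        push_cast
        rw [← h3, ← h4]
        field_simp
        ring
      rw [e]
      exact V.add_mem (V.smul_mem _ h5) (V.smul_mem _ h6)
  obtain ⟨x, y, e1⟩ := span_pair hV h (key a h.m00 h.m10)
  obtain ⟨x', y', e2⟩ := span_pair hV h (key (s * a) h.m01 (by
    rw [show t * (s * a) = s * (t * a) by ring]; exact h.m11))
  rw [map_mul, mul_div_assoc, e1] at e2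
  have e3 : σ s * ((y : PadicAlgCl p) * s + x) = (y' : PadicAlgCl p) * s + x' := by
    refine mul_right_cancel₀ h.ha ?_
    linear_combination e2
  refine ⟨y', x', y, x, ?_, e3⟩
  intro h0
  -- dependency
  have h0' : (y' : PadicAlgCl p) * x - x' * y = 0 := by
    have := congrArg (fun z : Qb p => (z : PadicAlgCl p)) h0
    push_cast at this
    exact this
  have hσs : σ s ∉ Qb p := by
    intro h7
    apply h.hs
    have h8 := alg_map (σ.symm : PadicAlgCl p →+* PadicAlgCl p) (mem_Qb.1 h7)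
    have h9 : (σ.symm : PadicAlgCl p →+* PadicAlgCl p) (σ s) = s := σ.symm_apply_apply s
    rw [h9] at h8
    exact mem_Qb.2 h8
  have hxy : (y : PadicAlgCl p) * s + x ≠ 0 := by
    intro h7
    have h8 : σ a / u = 0 := by
      rw [e1]
      linear_combination a * h7
    rw [div_eq_zero_iff] at h8
    rcases h8 with h8 | h8
    · exact h.ha ((map_eq_zero σ).1 h8)
    · exact hu h8
  -- `x' y = y' x`
  by_cases hx : x = 0
  · have hy : y ≠ 0 := by
      rintro rfl
      apply hxy
      rw [hx]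
      simp
    have hy' : (y : PadicAlgCl p) ≠ 0 := fun h => hy (Subtype.ext h)
    rw [hx] at h0' e3
    have hx' : (x' : PadicAlgCl p) = 0 := by
      simp only [ZeroMemClass.coe_zero, mul_zero, zero_sub, neg_eq_zero, mul_eq_zero] at h0'
      exact h0'.resolve_right hy'
    rw [hx'] at e3
    have hs0 : s ≠ 0 := by
      rintro rfl
      exact h.hs (Qb p).zero_mem
    apply hσs
    have : σ s = ((y' / y : Qb p) : PadicAlgCl p) := by
      push_cast
      rw [eq_div_iff hy']
      refine mul_right_cancel₀ hs0 ?_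
      simp only [ZeroMemClass.coe_zero, add_zero] at e3
      linear_combination e3
    rw [this]
    exact (y' / y).2
  · have hx' : (x : PadicAlgCl p) ≠ 0 := fun h => hx (Subtype.ext h)
    apply hσs
    have : σ s = ((x' / x : Qb p) : PadicAlgCl p) := by
      push_cast
      rw [eq_div_iff hx']
      refine mul_right_cancel₀ hxy ?_
      linear_combination x * e3 + s * h0'
    rw [this]
    exact (x' / x).2

end Pool.Agent.E8helper92.PG
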