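import Pool.Agent.E8helper92.PG.ExclK

/-!
# Logarithms of numbers near one
-/

set_option autoImplicit false

namespace Pool.Agent.E8helper92.PG

open Pool.Agent.W254.PA (Hyp)
open Pool.Agent.W245.PB (IsIwasawaLog)
open Module

variable {p : ℕ} [hp : Fact p.Prime]

theorem log_mem_K {L : PadicAlgCl p → PadicAlgCl p} (hL : IsIwasawaLog p L)
    (K : IntermediateField ℚ_[p] (PadicAlgCl p)) {x : PadicAlgCl p} (hx0 : x ≠ 0) (hx : x ∈ K) :
    L x ∈ K := by
  refine mem_K K fun σ => ?_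
  have h1 := log_galois hL (σ.restrictScalars ℚ_[p]) hx0
  have h2 : (σ.restrictScalars ℚ_[p]) x = x := σ.commutes ⟨x, hx⟩
  rw [h2] at h1
  exact h1

/-- the logarithm is injective near one -/
theorem log_inj {L : PadicAlgCl p → PadicAlgCl p} (hL : IsIwasawaLog p L) {x y : PadicAlgCl p}
    (hx : ‖x - 1‖ * (p : ℝ) ^ 3 ≤ 1) (hy : ‖y - 1‖ * (p : ℝ) ^ 3 ≤ 1) (h : L x = L y) : x = y := by
  have h1 : algebraMap (PadicAlgCl p) ℂ_[p] x = algebraMap (PadicAlgCl p) ℂ_[p] y := by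
    have h2 := hL.pe_log hx
    have h3 := hL.pe_log hy
    rw [h, h3] at h2
    exact h2.symm
  exact (algebraMap (PadicAlgCl p) ℂ_[p]).injective h1

theorem sq_notMem {L : PadicAlgCl p → PadicAlgCl p} (hL : IsIwasawaLog p L)
    (K : IntermediateField ℚ_[p] (PadicAlgCl p)) {a β : PadicAlgCl p} (ha : a ∈ K)
    (hβ0 : β ≠ 0) (hβ : ‖β - 1‖ * (p : ℝ) ^ 3 ≤ 1) (hdeg : 3 ≤ (minpoly K β).natDegree) (q : ℚ) :
    (L β - (q : PadicAlgCl p) * a) ^ 2 ∉ K := by
  classical
  intro hmem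
  have := normalK K
  have : Algebra.IsAlgebraic K (PadicAlgCl p) := Algebra.IsAlgebraic.tower_top (K := ℚ_[p]) K
  have hint : IsIntegral K β := Algebra.IsIntegral.isIntegral β
  set m := minpoly K β with hm
  have hm0 : m ≠ 0 := minpoly.ne_zero hint
  set T : Finset (PadicAlgCl p) := (m.rootSet (PadicAlgCl p)).toFinset with hT
  have hcard : T.card = m.natDegree := by
    rw [hT, Set.toFinset_card]
    exact Polynomial.card_rootSet_eq_natDegree (minpoly.irreducible hint).separable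
      (IsAlgClosed.splits _)
  have hconj : ∀ r ∈ T, ∃ σ : PadicAlgCl p ≃ₐ[K] PadicAlgCl p, σ β = r := by
    intro r hr
    rw [hT, Set.mem_toFinset] at hr
    have h1 : IsConjRoot K β r := (isConjRoot_iff_mem_minpoly_rootSet hint).2 hr
    obtain ⟨σ, h2⟩ := isConjRoot_iff_exists_algEquiv.1 h1.symm
    exact ⟨σ, h2⟩
  have hnear : ∀ σ : PadicAlgCl p ≃ₐ[K] PadicAlgCl p, ‖σ β - 1‖ * (p : ℝ) ^ 3 ≤ 1 := by
    intro σ
    have h1 := norm_galois (σ.restrictScalars ℚ_[p]) (β - 1)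
    rw [map_sub, map_one] at h1
    have h2 : ‖σ β - 1‖ = ‖β - 1‖ := h1
    rw [h2]
    exact hβ
  set w := L β - (q : PadicAlgCl p) * a with hw
  have hval : ∀ σ : PadicAlgCl p ≃ₐ[K] PadicAlgCl p,
      L (σ β) = (q : PadicAlgCl p) * a + w ∨ L (σ β) = (q : PadicAlgCl p) * a - w := by
    intro σ
    have h1 : σ (L β) = L (σ β) := log_galois hL (σ.restrictScalars ℚ_[p]) hβ0
    have h2 : σ a = a := σ.commutes ⟨a, ha⟩
    have h3 : σ (w ^ 2) = w ^ 2 := σ.commutes ⟨w ^ 2, hmem⟩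
    have h4 : (L (σ β) - (q : PadicAlgCl p) * a) ^ 2 = w ^ 2 := by
      rw [← h3, map_pow, hw, map_sub, map_mul, map_ratCast, h2, h1]
    rcases sq_eq_sq_iff_eq_or_eq_neg.1 h4 with h5 | h5
    · left; linear_combination h5
    · right; linear_combination h5
  have hle : T.card ≤ ({(q : PadicAlgCl p) * a + w, (q : PadicAlgCl p) * a - w} :
      Finset (PadicAlgCl p)).card := by
    refine Finset.card_le_card_of_injOn L ?_ ?_
    · intro r hr
      obtain ⟨σ, rfl⟩ := hconj r hr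
      rw [Finset.mem_coe, Finset.mem_insert, Finset.mem_singleton]
      exact hval σ
    · intro r hr s hs hrs
      obtain ⟨σ, rfl⟩ := hconj r hr
      obtain ⟨τ, rfl⟩ := hconj s hs
      exact log_inj hL (hnear σ) (hnear τ) hrs
  have h2 := Finset.card_le_two (a := (q : PadicAlgCl p) * a + w) (b := (q : PadicAlgCl p) * a - w)
  omega

end Pool.Agent.E8helper92.PG
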